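import Pool.Agent.Lib.MP_9aae89_an.Poisson

/-!
Construction of the solution `u = K h + v` by a contraction argument.
-/

namespace Pool.Agent.Lib.MP_9aae89_an

open MeasureTheory Set Filter Topology Metric InnerProductSpace Laplacian
open scoped ENNReal RealInnerProductSpace ContDiff BoundedContinuousFunction

/-- Truncation to `[-1, 1]`. -/
noncomputable def clamp (t : ℝ) : ℝ := max (-1) (min 1 t)

lemma continuous_clamp : Continuous clamp := by unfold clamp; fun_prop

lemma abs_clamp_le (t : ℝ) : |clamp t| ≤ 1 := by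
  unfold clamp
  rw [abs_le]
  exact ⟨le_max_left _ _, max_le (by norm_num) (min_le_left _ _)⟩

lemma clamp_lip (s t : ℝ) : |clamp s - clamp t| ≤ |s - t| := by
  unfold clamp
  calc |max (-1) (min 1 s) - max (-1) (min 1 t)| ≤ |min 1 s - min 1 t| := by
        rw [max_comm (-1) _, max_comm (-1) _]
        exact abs_max_sub_max_le_abs _ _ _
    _ ≤ |s - t| := by
        have h := abs_min_sub_min_le_max 1 s 1 t
        simpa using h

lemma clamp_eq {t : ℝ} (h : |t| ≤ 1) : clamp t = t := by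
  unfold clamp
  rw [abs_le] at h
  rw [min_eq_right h.2, max_eq_right h.1]

/-- The density attached to a bounded perturbation. -/
noncomputable def dens (f : ℝ → ℝ) (K : ℝ) (v : E3 → ℝ) (Y : E3) : ℝ := f (K * hh Y + clamp (v Y))

/-- Quantitative data of the nonlinearity and of the layer. -/
structure Data (f : ℝ → ℝ) (K s R F L : ℝ) : Prop where
  cont : Continuous f
  supp : ∀ t, R < |t| → f t = 0
  bd : ∀ t, |f t| ≤ F
  lip : ∀ s t, |f s - f t| ≤ L * |s - t|
  Lnn : 0 ≤ L
  K1 : 1 ≤ K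
  thin : R + 1 ≤ K * s

lemma dens_dens {f : ℝ → ℝ} {K s R F L : ℝ} (hd : Data f K s R F L) {v : E3 → ℝ}
    (hv : Continuous v) : Dens (Lam s) (dens f K v) F := by
  refine ⟨?_, fun Y => ?_, fun Y hY => ?_⟩
  · apply Continuous.aestronglyMeasurable
    unfold dens
    have h2 := continuous_hh
    have h3 := continuous_clamp
    exact hd.cont.comp ((continuous_const.mul h2).add (h3.comp hv))
  · exact hd.bd _
  · unfold dens
    have h1 : s < |hh Y| := by
      by_contra hcon
      exact hY (not_lt.mp hcon)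
    have h2 := abs_clamp_le (v Y)
    have hK : 0 < K := by linarith [hd.K1]
    have h3 : R < |K * hh Y + clamp (v Y)| := by
      have h4 : |K * hh Y| ≤ |K * hh Y + clamp (v Y)| + |clamp (v Y)| := by
        have : K * hh Y = (K * hh Y + clamp (v Y)) - clamp (v Y) := by ring
        calc |K * hh Y| = |(K * hh Y + clamp (v Y)) - clamp (v Y)| := by rw [← this]
          _ ≤ _ := abs_sub _ _
      rw [abs_mul, abs_of_pos hK] at h4
      have h5 := mul_lt_mul_of_pos_left h1 hK
      linarith [hd.thin]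
    exact hd.supp _ h3

lemma dens_sub {f : ℝ → ℝ} {K s R F L : ℝ} (hd : Data f K s R F L)
    {v w : E3 → ℝ} (hv : Continuous v) (hw : Continuous w) {d : ℝ} (hdd : ∀ Y, |v Y - w Y| ≤ d) :
    Dens (Lam s) (fun Y => dens f K v Y - dens f K w Y) (L * d) := by
  have h1 := dens_dens hd hv
  have h2 := dens_dens hd hw
  refine ⟨h1.meas.sub h2.meas, fun Y => ?_, fun Y hY => ?_⟩
  · unfold dens
    refine (hd.lip _ _).trans ?_
    apply mul_le_mul_of_nonneg_left _ hd.Lnn
    have : K * hh Y + clamp (v Y) - (K * hh Y + clamp (w Y)) = clamp (v Y) - clamp (w Y) := by ring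
    rw [this]
    exact (clamp_lip _ _).trans (hdd Y)
  · simp [h1.supp Y hY, h2.supp Y hY]

variable {S : Set E3} {M : ℝ}

lemma newton_norm_le (hS : Good S M) {g : E3 → ℝ} {A : ℝ} (hg : Dens S g A) (X : E3) :
    |pot (kd 0) g X| ≤ A * M := by
  have := norm_pot_le hS zero_le_one (fun Z hZ => norm_kd_zero_le hZ) hg X
  rwa [mul_one, Real.norm_eq_abs] at this

lemma newton_grad_le (hS : Good S M) {g : E3 → ℝ} {A : ℝ} (hg : Dens S g A) (X : E3) :
    ‖pot (kd' 0) g X‖ ≤ A * M := by
  have := norm_pot_le hS zero_le_one (fun Z hZ => norm_kd'_zero_le hZ) hg X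
  rwa [mul_one] at this

lemma newton_continuous (hS : Good S M) {g : E3 → ℝ} {A : ℝ} (hg : Dens S g A) :
    Continuous (pot (kd 0) g) :=
  continuous_iff_continuousAt.mpr fun X => ((newton_C1 hS hg).1 X).continuousAt

lemma pot_sub_density (hS : Good S M) {g₁ g₂ : E3 → ℝ} {A₁ A₂ : ℝ} (h₁ : Dens S g₁ A₁)
    (h₂ : Dens S g₂ A₂) (X : E3) :
    pot (kd 0) g₁ X - pot (kd 0) g₂ X = pot (kd 0) (fun Y => g₁ Y - g₂ Y) X := by
  have i₁ := integrable_integrand hS (stronglyMeasurable_kd 0) zero_le_one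
    (fun Z hZ => norm_kd_zero_le hZ) h₁ X
  have i₂ := integrable_integrand hS (stronglyMeasurable_kd 0) zero_le_one
    (fun Z hZ => norm_kd_zero_le hZ) h₂ X
  unfold pot
  rw [← integral_sub i₁ i₂]
  congr 1
  ext Y
  rw [sub_smul]

/-- The iteration map. -/
noncomputable def TT {f : ℝ → ℝ} {K s R F L : ℝ} (hd : Data f K s R F L) (hS : Good (Lam s) M)
    (v : E3 →ᵇ ℝ) : E3 →ᵇ ℝ :=
  BoundedContinuousFunction.ofNormedAddCommGroup (fun X => -(c0⁻¹ * pot (kd 0) (dens f K v) X))
    (by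
      have h1 := newton_continuous hS (dens_dens hd v.continuous)
      fun_prop)
    (c0⁻¹ * (F * M))
    (fun X => by
      rw [norm_neg, norm_mul, Real.norm_of_nonneg (inv_nonneg.mpr c0_pos.le), Real.norm_eq_abs]
      exact mul_le_mul_of_nonneg_left (newton_norm_le hS (dens_dens hd v.continuous) X)
        (inv_nonneg.mpr c0_pos.le))

/-- Existence of the perturbation, for every smooth compactly supported nonlinearity. -/
theorem exists_perturbation {f : ℝ → ℝ} (hf : ContDiff ℝ 1 f) (hfc : HasCompactSupport f) :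
    ∃ K : ℝ, 1 ≤ K ∧ ∃ v : E3 → ℝ, ContDiff ℝ 2 v ∧
    (∀ X, |v X| ≤ 1) ∧ (∀ X, ‖fderiv ℝ v X‖ ≤ 1/2) ∧
    (∀ X, Δ v X = f (K * hh X + v X)) := by
  have hc := c0_pos
  -- data of the nonlinearity
  obtain ⟨L, hL, hlip⟩ : ∃ L : ℝ, 0 < L ∧ ∀ s t : ℝ, |f s - f t| ≤ L * |s - t| := by
    obtain ⟨C, hC⟩ := ContDiff.lipschitzWith_of_hasCompactSupport (𝕂 := ℝ) hfc hf one_ne_zero
    refine ⟨C + 1, by positivity, fun s t => ?_⟩
    have h1 := hC.dist_le_mul s t
    rw [Real.dist_eq, Real.dist_eq] at h1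
    nlinarith [abs_nonneg (s - t)]
  obtain ⟨F, hF⟩ : ∃ F : ℝ, ∀ t, |f t| ≤ F := by
    obtain ⟨F, hF⟩ := hf.continuous.bounded_above_of_compact_support hfc
    exact ⟨F, fun t => by simpa using hF t⟩
  have hF0 : 0 ≤ F := (abs_nonneg _).trans (hF 0)
  obtain ⟨R, hR0, hR⟩ : ∃ R : ℝ, 0 ≤ R ∧ ∀ t, R < |t| → f t = 0 := by
    obtain ⟨R, hR⟩ := hfc.isCompact.isBounded.subset_closedBall 0
    refine ⟨max R 0, le_max_right _ _, fun t ht => ?_⟩
    by_contra h
    have : t ∈ closedBall (0:ℝ) R := hR (subset_tsupport _ h)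
    rw [mem_closedBall, dist_zero_right, Real.norm_eq_abs] at this
    linarith [le_max_left R 0]
  -- thin layer
  set η : ℝ := c0 / (2 * (F + L + 1)) with hηdef
  have hη : 0 < η := by positivity
  obtain ⟨s, hs, hS⟩ := layer_small hη
  set K : ℝ := max 1 ((R + 1) / s) with hKdef
  have hK1 : 1 ≤ K := le_max_left _ _
  have hthin : R + 1 ≤ K * s := by
    have : (R + 1) / s ≤ K := le_max_right _ _
    rwa [div_le_iff₀ hs] at this
  have hd : Data f K s R F L := ⟨hf.continuous, hR, hF, hlip, hL.le, hK1, hthin⟩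
  have hq1 : c0⁻¹ * (F * η) ≤ 1/2 := by
    rw [hηdef]
    have : c0⁻¹ * (F * (c0 / (2 * (F + L + 1)))) = F / (2 * (F + L + 1)) := by field_simp
    rw [this, div_le_div_iff₀ (by positivity) (by norm_num)]
    linarith
  have hq2 : c0⁻¹ * (L * η) ≤ 1/2 := by
    rw [hηdef]
    have : c0⁻¹ * (L * (c0 / (2 * (F + L + 1)))) = L / (2 * (F + L + 1)) := by field_simp
    rw [this, div_le_div_iff₀ (by positivity) (by norm_num)]
    linarith
  have hcontr : ContractingWith (1/2) (TT hd hS) := by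
    refine ⟨by norm_num, ?_⟩
    apply LipschitzWith.of_dist_le_mul
    intro v w
    rw [BoundedContinuousFunction.dist_le (by positivity)]
    intro X
    have hdd : ∀ Y, |v Y - w Y| ≤ dist v w := fun Y => by
      have := BoundedContinuousFunction.dist_coe_le_dist (f := v) (g := w) Y
      rwa [Real.dist_eq] at this
    have hD := dens_sub hd v.continuous w.continuous hdd
    have h1 := newton_norm_le hS hD X
    rw [← pot_sub_density hS (dens_dens hd v.continuous) (dens_dens hd w.continuous)] at h1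
    have h2 : dist (TT hd hS v X) (TT hd hS w X) =
        c0⁻¹ * |pot (kd 0) (dens f K v) X - pot (kd 0) (dens f K w) X| := by
      rw [Real.dist_eq]
      have : TT hd hS v X - TT hd hS w X =
          -(c0⁻¹ * (pot (kd 0) (dens f K v) X - pot (kd 0) (dens f K w) X)) := by
        simp only [TT, BoundedContinuousFunction.coe_ofNormedAddCommGroup]
        ring
      rw [this, abs_neg, abs_mul, abs_of_nonneg (inv_nonneg.mpr hc.le)]
    rw [h2]
    calc c0⁻¹ * |pot (kd 0) (dens f K v) X - pot (kd 0) (dens f K w) X|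
        ≤ c0⁻¹ * (L * dist v w * η) := mul_le_mul_of_nonneg_left h1 (inv_nonneg.mpr hc.le)
      _ = (c0⁻¹ * (L * η)) * dist v w := by ring
      _ ≤ (1/2) * dist v w := mul_le_mul_of_nonneg_right hq2 dist_nonneg
      _ = _ := by norm_num
  set v := ContractingWith.fixedPoint (TT hd hS) hcontr with hvdef
  have hfix : TT hd hS v = v := hcontr.fixedPoint_isFixedPt
  have hvX : ∀ X, v X = -(c0⁻¹ * pot (kd 0) (dens f K v) X) := by
    intro X
    conv_lhs => rw [← hfix]
    rfl
  obtain ⟨g, hg⟩ : ∃ g, g = dens f K v := ⟨_, rfl⟩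
  have hD : Dens (Lam s) g F := by rw [hg]; exact dens_dens hd v.continuous
  rw [← hg] at hvX
  have hbound : ∀ X, |v X| ≤ 1 := by
    intro X
    rw [hvX, abs_neg, abs_mul, abs_of_nonneg (inv_nonneg.mpr hc.le)]
    have h1 := mul_le_mul_of_nonneg_left (newton_norm_le hS hD X) (inv_nonneg.mpr hc.le)
    linarith
  have hdens : g = fun Y => f (K * hh Y + v Y) := by
    ext Y
    rw [hg]
    unfold dens
    rw [clamp_eq (hbound Y)]
  obtain ⟨hD1, hDc⟩ := newton_C1 hS hD
  have hvsmul : (v : E3 → ℝ) = (-c0⁻¹) • pot (kd 0) g := by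
    ext X
    rw [hvX X, Pi.smul_apply, smul_eq_mul]; ring
  have hvder : ∀ X, HasFDerivAt (v : E3 → ℝ) ((-c0⁻¹) • pot (kd' 0) g X) X := by
    intro X
    rw [hvsmul]
    exact (hD1 X).const_smul (-c0⁻¹)
  have hv1 : ContDiff ℝ 1 (v : E3 → ℝ) := by
    rw [contDiff_one_iff_fderiv]
    refine ⟨fun X => (hvder X).differentiableAt, ?_⟩
    have : fderiv ℝ (v : E3 → ℝ) = fun X => (-c0⁻¹) • pot (kd' 0) g X := by
      ext1 X; exact (hvder X).fderiv
    rw [this]
    exact hDc.const_smul (-c0⁻¹)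
  have hhC : ContDiff ℝ 1 hh := by unfold hh; fun_prop
  have hdens1 : ContDiff ℝ 1 g := by
    rw [hdens]
    exact hf.comp ((contDiff_const.mul hhC).add hv1)
  obtain ⟨hP2, hPl⟩ := poisson hS hD hdens1
  refine ⟨K, hK1, v, ?_, hbound, ?_, ?_⟩
  · rw [hvsmul]
    exact contDiff_const.smul hP2
  · intro X
    rw [(hvder X).fderiv, norm_smul, norm_neg, Real.norm_of_nonneg (inv_nonneg.mpr hc.le)]
    exact (mul_le_mul_of_nonneg_left (newton_grad_le hS hD X) (inv_nonneg.mpr hc.le)).trans hq1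
  · intro X
    have h1 : g X = f (K * hh X + v X) := by rw [hdens]
    rw [← h1]
    have h2 : Δ (v : E3 → ℝ) X = Δ ((-c0⁻¹) • pot (kd 0) g) X := by rw [hvsmul]
    rw [h2, laplacian_smul _ hP2.contDiffAt, hPl]
    simp only [smul_eq_mul]
    field_simp

end Pool.Agent.Lib.MP_9aae89_an
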