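import Mathlib

/-!
One-dimensional estimates: the double integral of `1 / max 1 |a + y^3 - 3 y z^2|` over the plane is
bounded independently of `a`.
-/

namespace Pool.Agent.Lib.MP_9aae89_an

open MeasureTheory Set
open scoped ENNReal

/-- The radial weight used in the `z`-integral. -/
noncomputable def wz (t : ℝ) : ℝ≥0∞ := (ENNReal.ofReal (max |t| (|t| ^ 3) ^ (1/2 : ℝ)))⁻¹

lemma integrable_norm_real {f : ℝ → ℝ} :
    Integrable (fun t : ℝ => f ‖t‖) volume ↔ IntegrableOn f (Ioi 0) := by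
  have := integrable_fun_norm_addHaar (E := ℝ) (volume : Measure ℝ) (f := f)
  simpa using this

/-- Radial profile `t ^ (-1/2)` near zero and `t ^ (-e)` at infinity. -/
noncomputable def prof (e t : ℝ) : ℝ := if t ≤ 1 then t ^ (-(1/2) : ℝ) else t ^ (-e)

lemma integrable_prof {e : ℝ} (he : 1 < e) : Integrable (fun t : ℝ => prof e ‖t‖) volume := by
  have hf : IntegrableOn (prof e) (Ioi 0) := by
    rw [← Ioc_union_Ioi_eq_Ioi (zero_le_one : (0:ℝ) ≤ 1)]
    refine IntegrableOn.union ?_ ?_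
    · have h1 : IntegrableOn (fun t : ℝ => t ^ (-(1/2) : ℝ)) (Ioc 0 1) := by
        have := intervalIntegral.intervalIntegrable_rpow' (a := 0) (b := 1) (r := -(1/2)) (by norm_num)
        rwa [intervalIntegrable_iff_integrableOn_Ioc_of_le zero_le_one] at this
      refine h1.congr_fun (fun t ht => ?_) measurableSet_Ioc
      simp [prof, ht.2]
    · have h1 : IntegrableOn (fun t : ℝ => t ^ (-e)) (Ioi 1) :=
        integrableOn_Ioi_rpow_of_lt (by linarith) one_pos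
      refine h1.congr_fun (fun t ht => ?_) measurableSet_Ioi
      have : ¬ t ≤ 1 := not_le.mpr ht
      simp [prof, this]
  exact integrable_norm_real.mpr hf

lemma ae_ne_real (r : ℝ) : ∀ᵐ t ∂(volume : Measure ℝ), t ≠ r := by
  simp [ae_iff, measure_singleton]

lemma lintegral_wz_lt_top : ∫⁻ t, wz t < ∞ := by
  have hle : ∀ᵐ t ∂(volume : Measure ℝ), wz t ≤ ENNReal.ofReal (prof (3/2) ‖t‖) := by
    filter_upwards [ae_ne_real 0] with t ht
    have htpos : 0 < |t| := abs_pos.mpr ht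
    have hpos : 0 < max |t| (|t| ^ 3) ^ (1/2 : ℝ) := Real.rpow_pos_of_pos (lt_max_of_lt_left htpos) _
    unfold wz
    rw [← ENNReal.ofReal_inv_of_pos hpos]
    apply ENNReal.ofReal_le_ofReal
    simp only [prof, Real.norm_eq_abs]
    split_ifs with h
    · have : max |t| (|t| ^ 3) = |t| := by
        apply max_eq_left
        calc |t| ^ 3 ≤ |t| ^ 1 := pow_le_pow_of_le_one htpos.le h (by norm_num)
          _ = |t| := pow_one _
      rw [this, ← Real.rpow_neg htpos.le]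
    · have h' : 1 ≤ |t| := (not_le.mp h).le
      have : max |t| (|t| ^ 3) = |t| ^ 3 := by
        apply max_eq_right
        calc |t| = |t| ^ 1 := (pow_one _).symm
          _ ≤ |t| ^ 3 := pow_le_pow_right₀ h' (by norm_num)
      rw [this, ← Real.rpow_neg (by positivity), ← Real.rpow_natCast, ← Real.rpow_mul htpos.le]
      norm_num
  calc ∫⁻ t, wz t ≤ ∫⁻ t, ENNReal.ofReal (prof (3/2) ‖t‖) := lintegral_mono_ae hle
    _ < ∞ := (integrable_prof (by norm_num)).lintegral_lt_top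

lemma measurable_wz : Measurable wz := by
  unfold wz
  fun_prop

/-- The key pointwise inequality. -/
lemma key_pointwise (c b z : ℝ) (hc : 0 < c) :
    max 1 |b| ^ (1/4 : ℝ) *
      max |Real.sqrt c * (|z| - Real.sqrt (max b 0 / c))| (|Real.sqrt c * (|z| - Real.sqrt (max b 0 / c))| ^ 3) ^ (1/2 : ℝ)
      ≤ max 1 |b - c * z ^ 2| := by
  set r := Real.sqrt (max b 0 / c) with hr
  set t := |Real.sqrt c * (|z| - r)| with ht
  set B := max 1 |b| with hB
  set D := max 1 |b - c * z ^ 2| with hD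
  have hr0 : 0 ≤ r := Real.sqrt_nonneg _
  have hsc : 0 < Real.sqrt c := Real.sqrt_pos.mpr hc
  have hcsq : Real.sqrt c ^ 2 = c := Real.sq_sqrt hc.le
  have hrsq : c * r ^ 2 = max b 0 := by
    rw [hr, Real.sq_sqrt (by positivity)]; field_simp
  have ht0 : 0 ≤ t := abs_nonneg _
  have htsq : t ^ 2 = c * (|z| - r) ^ 2 := by
    rw [ht, sq_abs, mul_pow, hcsq]
  have hB1 : 1 ≤ B := le_max_left _ _
  have hD1 : 1 ≤ D := le_max_left _ _
  have hz2 : z ^ 2 = |z| ^ 2 := (sq_abs z).symm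
  have hz0 : 0 ≤ |z| := abs_nonneg z
  have hDb : |b - c * z ^ 2| ≤ D := le_max_right _ _
  -- D ≥ t^2
  have hDt2 : t ^ 2 ≤ D := by
    refine le_trans ?_ hDb
    rw [htsq, hz2]
    rcases le_total 0 b with hb | hb
    · rw [max_eq_left hb] at hrsq
      rw [← hrsq]
      have h1 : c * r ^ 2 - c * |z| ^ 2 = -(c * ((|z| - r) * (|z| + r))) := by ring
      rw [h1, abs_neg, abs_mul, abs_of_pos hc, abs_mul, abs_of_nonneg (by positivity : 0 ≤ |z| + r)]
      apply mul_le_mul_of_nonneg_left _ hc.le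
      rw [← sq_abs (|z| - r), pow_two]
      apply mul_le_mul_of_nonneg_left _ (abs_nonneg _)
      rw [abs_le]
      constructor <;> linarith
    · rw [max_eq_right hb] at hrsq
      have hr00 : r = 0 := by
        have : r ^ 2 = 0 := by
          rcases mul_eq_zero.mp hrsq with h | h
          · exact absurd h hc.ne'
          · exact h
        simpa using this
      rw [hr00, sub_zero]
      have hcz : 0 ≤ c * |z| ^ 2 := mul_nonneg hc.le (sq_nonneg _)
      rw [abs_of_nonpos (by linarith : b - c * |z| ^ 2 ≤ 0)]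
      linarith
  -- D^2 ≥ t^2 B
  have hDtB : t ^ 2 * B ≤ D ^ 2 := by
    rcases le_total |b| 1 with hb1 | hb1
    · rw [hB, max_eq_left hb1, mul_one]
      nlinarith
    · rw [hB, max_eq_right hb1]
      refine le_trans ?_ (pow_le_pow_left₀ (abs_nonneg _) hDb 2)
      rw [sq_abs (b - c * z ^ 2), htsq, hz2]
      rcases le_total 0 b with hb | hb
      · rw [max_eq_left hb] at hrsq
        rw [abs_of_nonneg hb, ← hrsq]
        have h1 : (c * r ^ 2 - c * |z| ^ 2) ^ 2 - c * (|z| - r) ^ 2 * (c * r ^ 2)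
            = c ^ 2 * (|z| - r) ^ 2 * ((|z| + r) ^ 2 - r ^ 2) := by ring
        have h2 : 0 ≤ c ^ 2 * (|z| - r) ^ 2 * ((|z| + r) ^ 2 - r ^ 2) := by
          apply mul_nonneg (by positivity)
          nlinarith [mul_nonneg hz0 hr0]
        linarith
      · rw [max_eq_right hb] at hrsq
        have hr00 : r = 0 := by
          have : r ^ 2 = 0 := by
            rcases mul_eq_zero.mp hrsq with h | h
            · exact absurd h hc.ne'
            · exact h
          simpa using this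
        rw [hr00, sub_zero, abs_of_nonpos hb]
        have hcz : 0 ≤ c * |z| ^ 2 := mul_nonneg hc.le (sq_nonneg _)
        have hprod : 0 ≤ (c * |z| ^ 2) * (-b) := mul_nonneg hcz (neg_nonneg.mpr hb)
        nlinarith [hprod, sq_nonneg (c * |z| ^ 2), sq_nonneg b]
  -- conclude: fourth powers
  have hL0 : 0 ≤ B ^ (1/4 : ℝ) * max t (t ^ 3) ^ (1/2 : ℝ) := by positivity
  have hD0 : 0 ≤ D := by linarith
  refine le_of_pow_le_pow_left₀ (n := 4) (by norm_num) hD0 ?_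
  have h4 : (B ^ (1/4 : ℝ) * max t (t ^ 3) ^ (1/2 : ℝ)) ^ 4 = B * (max t (t ^ 3)) ^ 2 := by
    rw [mul_pow, ← Real.rpow_natCast (B ^ (1/4 : ℝ)), ← Real.rpow_mul (by linarith),
      ← Real.rpow_natCast (max t (t ^ 3) ^ (1/2 : ℝ)), ← Real.rpow_mul (by positivity)]
    norm_num
  rw [h4]
  rcases le_total t 1 with h1 | h1
  · have : max t (t ^ 3) = t := by
      apply max_eq_left
      calc t ^ 3 ≤ t ^ 1 := pow_le_pow_of_le_one ht0 h1 (by norm_num)
        _ = t := pow_one _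
    rw [this]
    have hD2 : 1 ≤ D ^ 2 := one_le_pow₀ hD1
    calc B * t ^ 2 = t ^ 2 * B := mul_comm _ _
      _ ≤ D ^ 2 := hDtB
      _ = D ^ 2 * 1 := (mul_one _).symm
      _ ≤ D ^ 2 * D ^ 2 := by apply mul_le_mul_of_nonneg_left hD2 (by positivity)
      _ = D ^ 4 := by ring
  · have : max t (t ^ 3) = t ^ 3 := by
      apply max_eq_right
      calc t = t ^ 1 := (pow_one _).symm
        _ ≤ t ^ 3 := pow_le_pow_right₀ h1 (by norm_num)
    rw [this]
    calc B * (t ^ 3) ^ 2 = (t ^ 2 * B) * (t ^ 2) ^ 2 := by ring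
      _ ≤ D ^ 2 * D ^ 2 := by
        apply mul_le_mul hDtB (pow_le_pow_left₀ (by positivity) hDt2 2) (by positivity) (by positivity)
      _ = D ^ 4 := by ring

lemma lintegral_affine (F : ℝ → ℝ≥0∞) (hF : Measurable F) (s r : ℝ) (hs : 0 < s) :
    ∫⁻ z, F (s * (z - r)) = (ENNReal.ofReal s)⁻¹ * ∫⁻ t, F t := by
  have h1 : ∫⁻ z, F (s * (z - r)) = ∫⁻ z, F (s * z) :=
    lintegral_sub_right_eq_self (fun z => F (s * z)) r
  rw [h1]
  have h2 : ∫⁻ t, F t ∂(Measure.map (s * ·) volume) = ∫⁻ z, F (s * z) :=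
    lintegral_map hF (measurable_const_mul s)
  rw [← h2, Real.map_volume_mul_left hs.ne', lintegral_smul_measure, smul_eq_mul,
    abs_of_pos (inv_pos.mpr hs), ENNReal.ofReal_inv_of_pos hs]

lemma wz_neg (t : ℝ) : wz (-t) = wz t := by simp [wz]

lemma innerZ (c b : ℝ) (hc : 0 < c) :
    ∫⁻ z, (ENNReal.ofReal (max 1 |b - c * z ^ 2|))⁻¹ ≤
      (ENNReal.ofReal (max 1 |b| ^ (1/4 : ℝ)))⁻¹ * (2 * ((ENNReal.ofReal (Real.sqrt c))⁻¹ * ∫⁻ t, wz t)) := by
  set r := Real.sqrt (max b 0 / c) with hr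
  have hB : 0 < max 1 |b| ^ (1/4 : ℝ) := Real.rpow_pos_of_pos (lt_max_of_lt_left one_pos) _
  have hpt : ∀ z : ℝ, (ENNReal.ofReal (max 1 |b - c * z ^ 2|))⁻¹ ≤
      (ENNReal.ofReal (max 1 |b| ^ (1/4 : ℝ)))⁻¹ *
        (wz (Real.sqrt c * (z - r)) + wz (Real.sqrt c * (z - (-r)))) := by
    intro z
    have h1 := key_pointwise c b z hc
    rw [← hr] at h1
    have h2 : (ENNReal.ofReal (max 1 |b - c * z ^ 2|))⁻¹ ≤
        (ENNReal.ofReal (max 1 |b| ^ (1/4 : ℝ)))⁻¹ * wz (Real.sqrt c * (|z| - r)) := by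
      unfold wz
      rw [← ENNReal.mul_inv (Or.inl (by simpa using hB)) (Or.inl ENNReal.ofReal_ne_top),
        ← ENNReal.ofReal_mul hB.le]
      exact ENNReal.inv_le_inv.mpr (ENNReal.ofReal_le_ofReal h1)
    refine h2.trans ?_
    gcongr
    rcases le_total 0 z with hz | hz
    · rw [abs_of_nonneg hz]; exact le_self_add
    · rw [abs_of_nonpos hz]
      have : Real.sqrt c * (-z - r) = -(Real.sqrt c * (z - (-r))) := by ring
      rw [this, wz_neg]
      exact le_add_self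
  refine (lintegral_mono hpt).trans ?_
  have hm : ∀ r' : ℝ, Measurable (fun z => wz (Real.sqrt c * (z - r'))) := fun r' =>
    measurable_wz.comp (by fun_prop)
  have hm2 : Measurable (fun z => wz (Real.sqrt c * (z - r)) + wz (Real.sqrt c * (z - (-r)))) :=
    (hm r).add (hm (-r))
  rw [lintegral_const_mul _ hm2, lintegral_add_left (hm r),
    lintegral_affine wz measurable_wz _ _ (Real.sqrt_pos.mpr hc),
    lintegral_affine wz measurable_wz _ _ (Real.sqrt_pos.mpr hc), two_mul]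

lemma exists_cube (a : ℝ) : ∃ α : ℝ, α ^ 3 = -a := by
  rcases le_total a 0 with h | h
  · refine ⟨(-a) ^ (1/3 : ℝ), ?_⟩
    rw [← Real.rpow_natCast, ← Real.rpow_mul (by linarith)]
    norm_num
  · refine ⟨-(a ^ (1/3 : ℝ)), ?_⟩
    have : (a ^ (1/3 : ℝ)) ^ 3 = a := by
      rw [← Real.rpow_natCast, ← Real.rpow_mul h]
      norm_num
    rw [neg_pow, this]; norm_num

lemma cube_bound (α y : ℝ) : (1/4) * (max 1 |y - α|) ^ 3 ≤ max 1 |y ^ 3 - α ^ 3| := by
  rcases le_total (|y - α|) 1 with h | h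
  · rw [max_eq_left h]
    refine le_trans ?_ (le_max_left _ _)
    norm_num
  · rw [max_eq_right h]
    refine le_trans ?_ (le_max_right _ _)
    have h1 : y ^ 3 - α ^ 3 = (y - α) * (y ^ 2 + y * α + α ^ 2) := by ring
    rw [h1, abs_mul, pow_succ', ← sq_abs] 
    have h2 : (1/4) * (y - α) ^ 2 ≤ |y ^ 2 + y * α + α ^ 2| := by
      refine le_trans ?_ (le_abs_self _)
      nlinarith [sq_nonneg (y + α)]
    have h3 := mul_le_mul_of_nonneg_left h2 (abs_nonneg (y - α))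
    rw [← sq_abs (y - α)] at h3
    simp only [abs_abs] 
    nlinarith [h3]

/-- The pointwise bound used in the `y`-integral. -/
lemma outer_pointwise (a α y : ℝ) (hα : α ^ 3 = -a) (hy : y ≠ 0) (hyα : y ≠ α) :
    (Real.sqrt (3 * |y|))⁻¹ * (max 1 |a + y ^ 3| ^ (1/4 : ℝ))⁻¹
      ≤ 2 * (prof (5/4) ‖y‖ + prof (5/4) ‖y - α‖) := by
  have hy0 : 0 < |y| := abs_pos.mpr hy
  have hyα0 : 0 < |y - α| := abs_pos.mpr (sub_ne_zero.mpr hyα)
  set q := max 1 |y - α| with hq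
  have hq1 : 1 ≤ q := le_max_left _ _
  have hq0 : 0 < q := by linarith
  -- first factor
  have h1 : (Real.sqrt (3 * |y|))⁻¹ ≤ |y| ^ (-(1/2) : ℝ) := by
    rw [Real.rpow_neg hy0.le, ← Real.sqrt_eq_rpow]
    apply inv_anti₀ (Real.sqrt_pos.mpr hy0)
    exact Real.sqrt_le_sqrt (by linarith)
  -- second factor
  have h2 : (max 1 |a + y ^ 3| ^ (1/4 : ℝ))⁻¹ ≤ 2 * q ^ (-(3/4) : ℝ) := by
    have h3 := cube_bound α y
    have h4 : y ^ 3 - α ^ 3 = a + y ^ 3 := by rw [hα]; ring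
    rw [h4, ← hq] at h3
    have h5 : ((1/4) * q ^ 3) ^ (1/4 : ℝ) ≤ max 1 |a + y ^ 3| ^ (1/4 : ℝ) :=
      Real.rpow_le_rpow (by positivity) h3 (by norm_num)
    have h6 : (1/2) * q ^ (3/4 : ℝ) ≤ ((1/4) * q ^ 3) ^ (1/4 : ℝ) := by
      rw [Real.mul_rpow (by norm_num) (by positivity), ← Real.rpow_natCast q 3,
        ← Real.rpow_mul hq0.le]
      have h7 : (1/2 : ℝ) ≤ (1/4 : ℝ) ^ (1/4 : ℝ) := by
        have : (1/2 : ℝ) = ((1/2 : ℝ) ^ (2:ℕ)) ^ (1/2 : ℝ) := by
          rw [← Real.rpow_natCast, ← Real.rpow_mul (by norm_num)]; norm_num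
        rw [this]
        have : ((1/2 : ℝ) ^ (2:ℕ)) = 1/4 := by norm_num
        rw [this]
        exact Real.rpow_le_rpow_of_exponent_ge (by norm_num) (by norm_num) (by norm_num)
      have h8 : q ^ ((3 : ℕ) * (1/4) : ℝ) = q ^ (3/4 : ℝ) := by norm_num
      rw [h8]
      gcongr
    have h9 : 0 < (1/2) * q ^ (3/4 : ℝ) := by positivity
    calc (max 1 |a + y ^ 3| ^ (1/4 : ℝ))⁻¹ ≤ ((1/2) * q ^ (3/4 : ℝ))⁻¹ :=
          inv_anti₀ h9 (h6.trans h5)
      _ = 2 * q ^ (-(3/4) : ℝ) := by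
          rw [mul_inv, Real.rpow_neg hq0.le]; norm_num
  have hp1 : q ^ (-(5/4) : ℝ) ≤ prof (5/4) ‖y - α‖ := by
    simp only [prof, Real.norm_eq_abs]
    split_ifs with h
    · have : q = 1 := max_eq_left h
      rw [this, Real.one_rpow]
      exact Real.one_le_rpow_of_pos_of_le_one_of_nonpos hyα0 h (by norm_num)
    · have : q = |y - α| := max_eq_right (not_le.mp h).le
      rw [this]
  have hp0 : 0 ≤ prof (5/4) ‖y‖ := by
    simp only [prof, Real.norm_eq_abs]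
    split_ifs <;> positivity
  have hp2 : |y| ^ (-(1/2) : ℝ) * q ^ (-(3/4) : ℝ) ≤ prof (5/4) ‖y‖ + prof (5/4) ‖y - α‖ := by
    rcases le_or_gt (|y|) 1 with h | h
    · have e1 : prof (5/4) ‖y‖ = |y| ^ (-(1/2) : ℝ) := by simp [prof, h]
      have e2 : q ^ (-(3/4) : ℝ) ≤ 1 := Real.rpow_le_one_of_one_le_of_nonpos hq1 (by norm_num)
      have e3 : 0 ≤ q ^ (-(5/4) : ℝ) := by positivity
      have e4 : 0 ≤ |y| ^ (-(1/2) : ℝ) := by positivity
      rw [e1]
      nlinarith [mul_le_mul_of_nonneg_left e2 e4]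
    · have e1 : prof (5/4) ‖y‖ = |y| ^ (-(5/4) : ℝ) := by
        have : ¬ |y| ≤ 1 := not_le.mpr h
        simp [prof, this]
      rw [e1]
      rcases le_total (|y|) q with hc | hc
      · -- q ≥ |y|
        have e2 : q ^ (-(3/4) : ℝ) ≤ |y| ^ (-(3/4) : ℝ) :=
          Real.rpow_le_rpow_of_nonpos hy0 hc (by norm_num)
        have e3 : |y| ^ (-(1/2) : ℝ) * |y| ^ (-(3/4) : ℝ) = |y| ^ (-(5/4) : ℝ) := by
          rw [← Real.rpow_add hy0]; norm_num
        have e4 : 0 ≤ |y| ^ (-(1/2) : ℝ) := by positivity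
        have e5 : 0 ≤ q ^ (-(5/4) : ℝ) := by positivity
        nlinarith [mul_le_mul_of_nonneg_left e2 e4]
      · have e2 : |y| ^ (-(1/2) : ℝ) ≤ q ^ (-(1/2) : ℝ) :=
          Real.rpow_le_rpow_of_nonpos hq0 hc (by norm_num)
        have e3 : q ^ (-(1/2) : ℝ) * q ^ (-(3/4) : ℝ) = q ^ (-(5/4) : ℝ) := by
          rw [← Real.rpow_add hq0]; norm_num
        have e4 : 0 ≤ q ^ (-(3/4) : ℝ) := by positivity
        have e5 : 0 ≤ |y| ^ (-(5/4) : ℝ) := by positivity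
        nlinarith [mul_le_mul_of_nonneg_right e2 e4]
  calc (Real.sqrt (3 * |y|))⁻¹ * (max 1 |a + y ^ 3| ^ (1/4 : ℝ))⁻¹
      ≤ |y| ^ (-(1/2) : ℝ) * (2 * q ^ (-(3/4) : ℝ)) := by
        apply mul_le_mul h1 h2 (by positivity) (by positivity)
    _ = 2 * (|y| ^ (-(1/2) : ℝ) * q ^ (-(3/4) : ℝ)) := by ring
    _ ≤ 2 * (prof (5/4) ‖y‖ + prof (5/4) ‖y - α‖) := by linarith

lemma prof_nonneg (e t : ℝ) (ht : 0 ≤ t) : 0 ≤ prof e t := by
  unfold prof; split_ifs <;> positivity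

/-- The plane integral of `1 / max 1 |a + y^3 - 3 y z^2|` is bounded independently of `a`. -/
theorem plane_bound : ∃ C : ℝ≥0∞, C < ∞ ∧ ∀ a : ℝ,
    ∫⁻ y : ℝ, ∫⁻ z : ℝ, (ENNReal.ofReal (max 1 |a + (y ^ 3 - 3 * y * z ^ 2)|))⁻¹ ≤ C := by
  have hG := integrable_prof (e := 5/4) (by norm_num)
  set J := ∫⁻ t, wz t with hJ
  set G := ∫⁻ y : ℝ, ENNReal.ofReal (prof (5/4) ‖y‖) with hGdef
  have hGlt : G < ∞ := hG.lintegral_lt_top
  have hJlt : J < ∞ := lintegral_wz_lt_top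
  refine ⟨2 * J * (2 * (G + G)), ?_, ?_⟩
  · exact ENNReal.mul_lt_top (ENNReal.mul_lt_top (by norm_num) hJlt)
      (ENNReal.mul_lt_top (by norm_num) (ENNReal.add_lt_top.mpr ⟨hGlt, hGlt⟩))
  intro a
  obtain ⟨α, hα⟩ := exists_cube a
  have hpt : ∀ᵐ y ∂(volume : Measure ℝ),
      ∫⁻ z : ℝ, (ENNReal.ofReal (max 1 |a + (y ^ 3 - 3 * y * z ^ 2)|))⁻¹ ≤
        2 * J * (2 * (ENNReal.ofReal (prof (5/4) ‖y‖) + ENNReal.ofReal (prof (5/4) ‖y - α‖))) := by
    filter_upwards [ae_ne_real 0, ae_ne_real α] with y hy0 hyα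
    have hyabs : 0 < |y| := abs_pos.mpr hy0
    have hc : 0 < 3 * |y| := by positivity
    obtain ⟨b, hb1, hb2⟩ : ∃ b : ℝ, |b| = |a + y ^ 3| ∧
        ∀ z : ℝ, |a + (y ^ 3 - 3 * y * z ^ 2)| = |b - (3 * |y|) * z ^ 2| := by
      rcases le_total 0 y with h | h
      · refine ⟨a + y ^ 3, rfl, fun z => ?_⟩
        rw [abs_of_nonneg h]; congr 1; ring
      · refine ⟨-(a + y ^ 3), abs_neg _, fun z => ?_⟩
        rw [abs_of_nonpos h, ← abs_neg]; congr 1; ring
    have h1 : ∫⁻ z : ℝ, (ENNReal.ofReal (max 1 |a + (y ^ 3 - 3 * y * z ^ 2)|))⁻¹ =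
        ∫⁻ z : ℝ, (ENNReal.ofReal (max 1 |b - (3 * |y|) * z ^ 2|))⁻¹ := by
      simp_rw [hb2]
    rw [h1]
    refine (innerZ _ b hc).trans ?_
    rw [hb1, ← hJ]
    have hBpos : 0 < max 1 |a + y ^ 3| ^ (1/4 : ℝ) := Real.rpow_pos_of_pos (lt_max_of_lt_left one_pos) _
    have hspos : 0 < Real.sqrt (3 * |y|) := Real.sqrt_pos.mpr hc
    have h2 := ENNReal.ofReal_le_ofReal (outer_pointwise a α y hα hy0 hyα)
    rw [ENNReal.ofReal_mul (inv_nonneg.mpr hspos.le), ENNReal.ofReal_inv_of_pos hspos,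
      ENNReal.ofReal_inv_of_pos hBpos, ENNReal.ofReal_mul (by norm_num),
      ENNReal.ofReal_add (prof_nonneg _ _ (norm_nonneg _)) (prof_nonneg _ _ (norm_nonneg _))] at h2
    have h3 : (ENNReal.ofReal (max 1 |a + y ^ 3| ^ (1/4 : ℝ)))⁻¹ *
        (2 * ((ENNReal.ofReal (Real.sqrt (3 * |y|)))⁻¹ * J)) =
        2 * J * ((ENNReal.ofReal (Real.sqrt (3 * |y|)))⁻¹ *
          (ENNReal.ofReal (max 1 |a + y ^ 3| ^ (1/4 : ℝ)))⁻¹) := by ring
    rw [h3]
    have h4 : ENNReal.ofReal 2 = 2 := by norm_num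
    rw [h4] at h2
    gcongr
  refine (lintegral_mono_ae hpt).trans ?_
  have hm1 : Measurable (fun y : ℝ => ENNReal.ofReal (prof (5/4) ‖y‖)) := by
    unfold prof
    refine ENNReal.measurable_ofReal.comp ?_
    refine Measurable.ite ?_ ?_ ?_
    · exact measurableSet_le (by fun_prop) (by fun_prop)
    · fun_prop
    · fun_prop
  have hm2 : Measurable (fun y : ℝ => ENNReal.ofReal (prof (5/4) ‖y - α‖)) :=
    hm1.comp (measurable_id.sub_const α)
  have hm3 : Measurable (fun y : ℝ => ENNReal.ofReal (prof (5/4) ‖y‖) +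
    ENNReal.ofReal (prof (5/4) ‖y - α‖)) := hm1.add hm2
  have hm4 : Measurable (fun y : ℝ => 2 * (ENNReal.ofReal (prof (5/4) ‖y‖) +
    ENNReal.ofReal (prof (5/4) ‖y - α‖))) := hm3.const_mul 2
  rw [lintegral_const_mul _ hm4, lintegral_const_mul _ hm3, lintegral_add_left hm1,
    lintegral_sub_right_eq_self (fun y => ENNReal.ofReal (prof (5/4) ‖y‖)) α]

end Pool.Agent.Lib.MP_9aae89_an
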