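import Pool.Agent.Lib.MP_9aae89_an.Kernel1D

/-!
The layers `{|h| ≤ s}` around the zero set of the harmonic polynomial
`h = x + y^3 - 3 y z^2` on three-dimensional space, and the uniform smallness of the
integral of the majorant kernel over thin layers.
-/

namespace Pool.Agent.Lib.MP_9aae89_an

open MeasureTheory Set Filter Topology
open scoped ENNReal

/-- Three-dimensional Euclidean space. -/
abbrev E3 := EuclideanSpace ℝ (Fin 3)

/-- The harmonic polynomial `x + y^3 - 3 y z^2`. -/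
noncomputable def hh (X : E3) : ℝ := X 0 + ((X 1) ^ 3 - 3 * (X 1) * (X 2) ^ 2)

/-- The layer `|h| ≤ s`. -/
def Lam (s : ℝ) : Set E3 := {X | |hh X| ≤ s}

/-- Far-field majorant. -/
noncomputable def ww (Z : E3) : ℝ := (max 1 ‖Z‖)⁻¹

/-- Near-field majorant. -/
noncomputable def wn (Z : E3) : ℝ := if ‖Z‖ ≤ 1 then ‖Z‖ ^ (-(5/2) : ℝ) else 0

/-- The full majorant. -/
noncomputable def WW (Z : E3) : ℝ := wn Z + ww Z

lemma ww_nonneg (Z : E3) : 0 ≤ ww Z := by unfold ww; positivity
lemma ww_pos (Z : E3) : 0 < ww Z := by unfold ww; positivity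
lemma wn_nonneg (Z : E3) : 0 ≤ wn Z := by unfold wn; split_ifs <;> positivity
lemma WW_nonneg (Z : E3) : 0 ≤ WW Z := add_nonneg (wn_nonneg Z) (ww_nonneg Z)
lemma ww_le_WW (Z : E3) : ww Z ≤ WW Z := le_add_of_nonneg_left (wn_nonneg Z)

lemma continuous_hh : Continuous hh := by unfold hh; fun_prop

lemma isClosed_Lam (s : ℝ) : IsClosed (Lam s) := by
  unfold Lam
  exact isClosed_le (continuous_hh.abs) continuous_const

lemma measurableSet_Lam (s : ℝ) : MeasurableSet (Lam s) := (isClosed_Lam s).measurableSet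

lemma measurable_ww : Measurable ww := by unfold ww; fun_prop

lemma measurable_wn : Measurable wn := by
  unfold wn
  refine Measurable.ite ?_ ?_ ?_
  · exact measurableSet_le (by fun_prop) (by fun_prop)
  · fun_prop
  · fun_prop

lemma measurable_WW : Measurable WW := measurable_wn.add measurable_ww

lemma coord_mp : MeasurePreserving (fun Y : E3 => ((Y 0, (Y 1, Y 2)) : ℝ × ℝ × ℝ)) volume volume := by
  have h1 := PiLp.volume_preserving_ofLp (Fin 3)
  have h2 := volume_preserving_piFinSuccAbove (fun _ : Fin 3 => ℝ) 0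
  have h3 := volume_preserving_finTwoArrow ℝ
  have h4 : MeasurePreserving (Prod.map (id : ℝ → ℝ) (MeasurableEquiv.finTwoArrow : (Fin 2 → ℝ) ≃ᵐ ℝ × ℝ))
      (volume : Measure (ℝ × (Fin 2 → ℝ))) (volume : Measure (ℝ × ℝ × ℝ)) :=
    (MeasurePreserving.id (volume : Measure ℝ)).prod h3
  exact h4.comp (h2.comp h1)

/-- The far-field part of the layer estimate. -/
lemma layer_far : ∃ C : ℝ≥0∞, C < ∞ ∧ ∀ s : ℝ, s ≤ 2 → ∀ X : E3,
    ∫⁻ Y in Lam s, ENNReal.ofReal (ww (X - Y)) ≤ ENNReal.ofReal (2 * s) * C := by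
  obtain ⟨C, hC, hb⟩ := plane_bound
  refine ⟨3 * C, ENNReal.mul_lt_top (by norm_num) hC, ?_⟩
  intro s0 hs0 X
  set a := X 0 with ha
  -- the transferred integrand
  let F : ℝ × ℝ × ℝ → ℝ≥0∞ := fun p =>
    ({p : ℝ × ℝ × ℝ | |p.1 + (p.2.1 ^ 3 - 3 * p.2.1 * p.2.2 ^ 2)| ≤ s0}).indicator
      (fun p => 3 * (ENNReal.ofReal (max 1 |a + (p.2.1 ^ 3 - 3 * p.2.1 * p.2.2 ^ 2)|))⁻¹) p
  have hFm : Measurable F := by
    apply Measurable.indicator
    · fun_prop
    · exact measurableSet_le (by fun_prop) (by fun_prop)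
  have hpt : ∀ Y ∈ Lam s0, ENNReal.ofReal (ww (X - Y)) ≤ F (Y 0, (Y 1, Y 2)) := by
    intro Y hY
    have hmem : ((Y 0, (Y 1, Y 2)) : ℝ × ℝ × ℝ) ∈
        {p : ℝ × ℝ × ℝ | |p.1 + (p.2.1 ^ 3 - 3 * p.2.1 * p.2.2 ^ 2)| ≤ s0} := hY
    simp only [F, Set.indicator_of_mem hmem]
    set s := (Y 1) ^ 3 - 3 * (Y 1) * (Y 2) ^ 2 with hs
    have hYs : |Y 0 + s| ≤ 2 := le_trans hY hs0
    have hpos : 0 < max 1 |a + s| := lt_max_of_lt_left one_pos
    rw [← ENNReal.ofReal_inv_of_pos hpos]
    have h3 : (3 : ℝ≥0∞) = ENNReal.ofReal 3 := by norm_num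
    rw [h3, ← ENNReal.ofReal_mul (by norm_num)]
    apply ENNReal.ofReal_le_ofReal
    have hn : |a - Y 0| ≤ ‖X - Y‖ := by
      have := PiLp.norm_apply_le (X - Y) 0
      simpa [ha] using this
    have h4 : max 1 |a + s| ≤ 3 * max 1 ‖X - Y‖ := by
      have h5 : |a + s| ≤ |a - Y 0| + |Y 0 + s| := by
        have : a + s = (a - Y 0) + (Y 0 + s) := by ring
        rw [this]; exact abs_add_le _ _
      have h6 : (1:ℝ) ≤ max 1 ‖X - Y‖ := le_max_left _ _
      have h7 : ‖X - Y‖ ≤ max 1 ‖X - Y‖ := le_max_right _ _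
      apply max_le
      · linarith
      · linarith
    unfold ww
    rw [← div_eq_mul_inv, inv_eq_one_div, div_le_div_iff₀ (lt_max_of_lt_left one_pos) hpos]
    linarith
  calc ∫⁻ Y in Lam s0, ENNReal.ofReal (ww (X - Y))
      ≤ ∫⁻ Y in Lam s0, F (Y 0, (Y 1, Y 2)) := setLIntegral_mono' (measurableSet_Lam s0) hpt
    _ ≤ ∫⁻ Y : E3, F (Y 0, (Y 1, Y 2)) := setLIntegral_le_lintegral _ _
    _ = ∫⁻ p : ℝ × ℝ × ℝ, F p := coord_mp.lintegral_comp hFm
    _ = ∫⁻ q : ℝ × ℝ, ∫⁻ x : ℝ, F (x, q) := by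
        rw [Measure.volume_eq_prod, lintegral_prod_symm' _ hFm]
    _ = ∫⁻ q : ℝ × ℝ, ENNReal.ofReal (2 * s0) *
          (3 * (ENNReal.ofReal (max 1 |a + (q.1 ^ 3 - 3 * q.1 * q.2 ^ 2)|))⁻¹) := by
        apply lintegral_congr
        intro q
        have h1 : ∀ x : ℝ, F (x, q) = (Set.Icc (-s0 - (q.1 ^ 3 - 3 * q.1 * q.2 ^ 2)) (s0 - (q.1 ^ 3 - 3 * q.1 * q.2 ^ 2))).indicator
            (fun _ => 3 * (ENNReal.ofReal (max 1 |a + (q.1 ^ 3 - 3 * q.1 * q.2 ^ 2)|))⁻¹) x := by
          intro x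
          simp only [F, Set.indicator_apply, Set.mem_ofPred_eq, Set.mem_Icc, abs_le]
          congr 1
          apply propext
          constructor
          · rintro ⟨h1, h2⟩; constructor <;> linarith
          · rintro ⟨h1, h2⟩; constructor <;> linarith
        simp_rw [h1]
        rw [lintegral_indicator measurableSet_Icc, setLIntegral_const, Real.volume_Icc, mul_comm]
        congr 2
        ring
    _ = ENNReal.ofReal (2 * s0) * (3 *
          ∫⁻ q : ℝ × ℝ, (ENNReal.ofReal (max 1 |a + (q.1 ^ 3 - 3 * q.1 * q.2 ^ 2)|))⁻¹) := by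
        have hm : Measurable (fun q : ℝ × ℝ => (ENNReal.ofReal (max 1 |a + (q.1 ^ 3 - 3 * q.1 * q.2 ^ 2)|))⁻¹) := by
          fun_prop
        rw [lintegral_const_mul _ (hm.const_mul 3), lintegral_const_mul _ hm]
    _ ≤ ENNReal.ofReal (2 * s0) * (3 * C) := by
        gcongr
        rw [Measure.volume_eq_prod, lintegral_prod _ (by fun_prop)]
        exact hb a

lemma integrable_wn : Integrable wn volume := by
  have h := integrable_fun_norm_addHaar (E := E3) (volume : Measure E3)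
    (f := fun t : ℝ => if t ≤ 1 then t ^ (-(5/2) : ℝ) else 0)
  have hd : Module.finrank ℝ E3 = 3 := by simp
  rw [hd] at h
  refine h.mpr ?_
  have h1 : IntegrableOn (fun t : ℝ => t ^ (-(1/2) : ℝ)) (Ioc 0 1) := by
    have := intervalIntegral.intervalIntegrable_rpow' (a := 0) (b := 1) (r := -(1/2)) (by norm_num)
    rwa [intervalIntegrable_iff_integrableOn_Ioc_of_le zero_le_one] at this
  rw [← Ioc_union_Ioi_eq_Ioi (zero_le_one : (0:ℝ) ≤ 1)]
  refine IntegrableOn.union ?_ ?_
  · refine h1.congr_fun (fun t ht => ?_) measurableSet_Ioc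
    simp only [ht.2, if_true, smul_eq_mul]
    rw [← Real.rpow_natCast, ← Real.rpow_add ht.1]
    norm_num
  · refine (integrableOn_zero).congr_fun (fun t ht => ?_) measurableSet_Ioi
    have : ¬ t ≤ 1 := not_le.mpr ht
    simp [this]

lemma ww_eq_one {Z : E3} (h : ‖Z‖ ≤ 1) : ww Z = 1 := by
  unfold ww; rw [max_eq_left h, inv_one]

/-- The tail of the near-field majorant. -/
lemma wn_tail {η : ℝ≥0∞} (hη : 0 < η) : ∃ T : ℝ, 0 < T ∧
    ∫⁻ Z, {Z : E3 | T < wn Z}.indicator (fun Z => ENNReal.ofReal (wn Z)) Z < η := by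
  have hlim : Tendsto (fun n : ℕ => ∫⁻ Z, {Z : E3 | (n : ℝ) < wn Z}.indicator
      (fun Z => ENNReal.ofReal (wn Z)) Z) atTop (𝓝 (∫⁻ _ : E3, (0 : ℝ≥0∞))) := by
    refine tendsto_lintegral_of_dominated_convergence (fun Z => ENNReal.ofReal (wn Z)) ?_ ?_ ?_ ?_
    · intro n
      exact measurable_wn.ennreal_ofReal.indicator (measurableSet_lt measurable_const measurable_wn)
    · intro n
      exact Eventually.of_forall fun Z => Set.indicator_le_self _ _ _
    · exact integrable_wn.lintegral_lt_top.ne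
    · refine Eventually.of_forall fun Z => ?_
      refine tendsto_const_nhds.congr' ?_
      obtain ⟨N, hN⟩ := exists_nat_gt (wn Z)
      filter_upwards [eventually_ge_atTop N] with n hn
      have h1 : ¬ ((n : ℝ) < wn Z) := by
        have : (N : ℝ) ≤ n := by exact_mod_cast hn
        intro h; linarith
      rw [Set.indicator_of_notMem]
      exact h1
  rw [lintegral_zero] at hlim
  obtain ⟨n, hn, hn1⟩ := ((hlim.eventually (gt_mem_nhds hη)).and (eventually_gt_atTop 0)).exists
  exact ⟨n, by exact_mod_cast hn1, hn⟩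

/-- Measurable sets on which the majorant kernel is uniformly integrable with bound `M`. -/
structure Good (S : Set E3) (M : ℝ) : Prop where
  meas : MeasurableSet S
  pos : 0 < M
  int : ∀ X : E3, IntegrableOn (fun Y => WW (X - Y)) S volume
  bd : ∀ X : E3, ∫ Y in S, WW (X - Y) ≤ M

/-- **Layer estimate**: the integral of the majorant kernel over thin layers is uniformly
small. -/
theorem layer_small {η : ℝ} (hη : 0 < η) : ∃ s : ℝ, 0 < s ∧ Good (Lam s) η := by
  obtain ⟨C, hC, hb⟩ := layer_far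
  have hη' : 0 < ENNReal.ofReal (η / 2) := ENNReal.ofReal_pos.mpr (by positivity)
  obtain ⟨T, hT, hTt⟩ := wn_tail hη'
  -- pointwise splitting of the near-field majorant
  have hsplit : ∀ Z : E3, ENNReal.ofReal (WW Z) ≤
      {Z : E3 | T < wn Z}.indicator (fun Z => ENNReal.ofReal (wn Z)) Z +
        ENNReal.ofReal (T + 1) * ENNReal.ofReal (ww Z) := by
    intro Z
    unfold WW
    rw [ENNReal.ofReal_add (wn_nonneg Z) (ww_nonneg Z)]
    by_cases h : T < wn Z
    · rw [Set.indicator_of_mem (show Z ∈ {Z : E3 | T < wn Z} from h)]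
      gcongr
      rw [← ENNReal.ofReal_mul (by linarith)]
      apply ENNReal.ofReal_le_ofReal
      nlinarith [ww_nonneg Z]
    · rw [Set.indicator_of_notMem (show Z ∉ {Z : E3 | T < wn Z} from h), zero_add,
        ← ENNReal.ofReal_add (wn_nonneg Z) (ww_nonneg Z), ← ENNReal.ofReal_mul (by linarith)]
      apply ENNReal.ofReal_le_ofReal
      by_cases h1 : ‖Z‖ ≤ 1
      · rw [ww_eq_one h1]; linarith
      · have h2 : wn Z = 0 := by unfold wn; rw [if_neg h1]
        rw [h2]
        nlinarith [ww_nonneg Z]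
  -- choose the thickness
  obtain ⟨s, hs, hs2, hsC⟩ : ∃ s : ℝ, 0 < s ∧ s ≤ 2 ∧
      ENNReal.ofReal (T + 1) * (ENNReal.ofReal (2 * s) * C) ≤ ENNReal.ofReal (η / 2) := by
    set c := C.toReal with hc
    have hc0 : 0 ≤ c := ENNReal.toReal_nonneg
    have hCc : C = ENNReal.ofReal c := (ENNReal.ofReal_toReal hC.ne).symm
    refine ⟨min 2 (η / (4 * (T + 1) * (c + 1))), lt_min two_pos (by positivity), min_le_left _ _, ?_⟩
    rw [hCc, ← ENNReal.ofReal_mul (by positivity), ← ENNReal.ofReal_mul (by linarith)]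
    apply ENNReal.ofReal_le_ofReal
    have h1 : min 2 (η / (4 * (T + 1) * (c + 1))) ≤ η / (4 * (T + 1) * (c + 1)) := min_le_right _ _
    have h2 : (T + 1) * (2 * (η / (4 * (T + 1) * (c + 1))) * c) = η / 2 * (c / (c + 1)) := by
      field_simp
      ring
    have h3 : c / (c + 1) ≤ 1 := by rw [div_le_one (by linarith)]; linarith
    calc (T + 1) * (2 * min 2 (η / (4 * (T + 1) * (c + 1))) * c)
        ≤ (T + 1) * (2 * (η / (4 * (T + 1) * (c + 1))) * c) := by gcongr
      _ = η / 2 * (c / (c + 1)) := h2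
      _ ≤ η / 2 * 1 := by gcongr
      _ = η / 2 := mul_one _
  have hfin : ∀ X : E3, ∫⁻ Y in Lam s, ENNReal.ofReal (WW (X - Y)) ≤ ENNReal.ofReal η := by
    intro X
    have hm1 : Measurable (fun Z : E3 => {Z : E3 | T < wn Z}.indicator
        (fun Z => ENNReal.ofReal (wn Z)) Z) :=
      measurable_wn.ennreal_ofReal.indicator (measurableSet_lt measurable_const measurable_wn)
    have hm2 : Measurable (fun Y : E3 => {Z : E3 | T < wn Z}.indicator
        (fun Z => ENNReal.ofReal (wn Z)) (X - Y)) :=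
      hm1.comp (by fun_prop)
    have hm3 : Measurable (fun Y : E3 => ENNReal.ofReal (ww (X - Y))) :=
      (measurable_ww.comp (by fun_prop)).ennreal_ofReal
    calc ∫⁻ Y in Lam s, ENNReal.ofReal (WW (X - Y))
        ≤ ∫⁻ Y in Lam s, ({Z : E3 | T < wn Z}.indicator (fun Z => ENNReal.ofReal (wn Z)) (X - Y) +
            ENNReal.ofReal (T + 1) * ENNReal.ofReal (ww (X - Y))) :=
          lintegral_mono fun Y => hsplit (X - Y)
      _ = (∫⁻ Y in Lam s, {Z : E3 | T < wn Z}.indicator (fun Z => ENNReal.ofReal (wn Z)) (X - Y)) +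
            ENNReal.ofReal (T + 1) * ∫⁻ Y in Lam s, ENNReal.ofReal (ww (X - Y)) := by
          rw [lintegral_add_left hm2, lintegral_const_mul _ hm3]
      _ ≤ (∫⁻ Y, {Z : E3 | T < wn Z}.indicator (fun Z => ENNReal.ofReal (wn Z)) (X - Y)) +
            ENNReal.ofReal (T + 1) * (ENNReal.ofReal (2 * s) * C) := by
          gcongr
          · exact Measure.restrict_le_self
          · exact hb s hs2 X
      _ ≤ ENNReal.ofReal (η / 2) + ENNReal.ofReal (η / 2) := by
          gcongr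
          have h1 := lintegral_sub_left_eq_self (μ := (volume : Measure E3)) (fun Z : E3 => {Z : E3 | T < wn Z}.indicator
            (fun Z => ENNReal.ofReal (wn Z)) Z) X
          rw [h1]
          exact hTt.le
      _ = ENNReal.ofReal η := by
          rw [← ENNReal.ofReal_add (by positivity) (by positivity)]
          congr 1; ring
  refine ⟨s, hs, measurableSet_Lam s, hη, fun X => ?_, fun X => ?_⟩
  · refine ⟨(measurable_WW.comp (by fun_prop)).aestronglyMeasurable, ?_⟩
    rw [hasFiniteIntegral_iff_ofReal (Filter.Eventually.of_forall fun Y => WW_nonneg _)]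
    exact (hfin X).trans_lt ENNReal.ofReal_lt_top
  · rw [integral_eq_lintegral_of_nonneg_ae (Filter.Eventually.of_forall fun Y => WW_nonneg _)
      (measurable_WW.comp (by fun_prop)).aestronglyMeasurable]
    exact ENNReal.toReal_le_of_le_ofReal hη.le (hfin X)

end Pool.Agent.Lib.MP_9aae89_an
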