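import Pool.Agent.Lib.MP_9aae89_an.Shape

/-!
Assembly of the counterexample.
-/

namespace Pool.Agent.Lib.MP_9aae89_an

open MeasureTheory Set Filter Topology Metric InnerProductSpace Laplacian
open scoped ENNReal RealInnerProductSpace ContDiff

/-- Slope bound of the inverse two-phase profile. -/
lemma slope_inv {α β : ℝ} (hα : 0 < α) (hβ : 0 < β) {s s' : ℝ} (h : s ≤ s') :
    min α⁻¹ β⁻¹ * (s' - s) ≤ (α⁻¹ * max s' 0 - β⁻¹ * max (-s') 0) - (α⁻¹ * max s 0 - β⁻¹ * max (-s) 0) := by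
  have ha : 0 < α⁻¹ := inv_pos.mpr hα
  have hb : 0 < β⁻¹ := inv_pos.mpr hβ
  have h1 : min α⁻¹ β⁻¹ ≤ α⁻¹ := min_le_left _ _
  have h2 : min α⁻¹ β⁻¹ ≤ β⁻¹ := min_le_right _ _
  rcases le_total 0 s with hs | hs
  · rw [max_eq_left hs, max_eq_left (hs.trans h), max_eq_right (by linarith : -s ≤ 0),
      max_eq_right (by linarith : -s' ≤ 0)]
    nlinarith
  · rcases le_total 0 s' with hs' | hs'
    · rw [max_eq_right hs, max_eq_left hs', max_eq_left (by linarith : 0 ≤ -s),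
        max_eq_right (by linarith : -s' ≤ 0)]
      nlinarith
    · rw [max_eq_right hs, max_eq_right hs', max_eq_left (by linarith : 0 ≤ -s),
        max_eq_left (by linarith : 0 ≤ -s')]
      nlinarith

lemma profile_inv {α β : ℝ} (hα : 0 < α) (hβ : 0 < β) (s : ℝ) :
    α * max (α⁻¹ * max s 0 - β⁻¹ * max (-s) 0) 0 - β * max (-(α⁻¹ * max s 0 - β⁻¹ * max (-s) 0)) 0 = s := by
  have ha : 0 < α⁻¹ := inv_pos.mpr hα
  have hb : 0 < β⁻¹ := inv_pos.mpr hβ
  rcases le_total 0 s with hs | hs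
  · rw [max_eq_left hs, max_eq_right (by linarith : -s ≤ 0), mul_zero, sub_zero]
    have h1 : 0 ≤ α⁻¹ * s := by positivity
    rw [max_eq_left h1, max_eq_right (by linarith : -(α⁻¹ * s) ≤ 0)]
    field_simp
    ring
  · rw [max_eq_right hs, max_eq_left (by linarith : 0 ≤ -s), mul_zero, zero_sub, neg_neg]
    have h1 : 0 ≤ β⁻¹ * (-s) := mul_nonneg hb.le (by linarith)
    rw [max_eq_right (by linarith : -(β⁻¹ * -s) ≤ 0), max_eq_left h1]
    field_simp
    ring

lemma abs_coord_le (x : E3) (i : Fin 3) : |x i| ≤ ‖x‖ := by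
  have := PiLp.norm_apply_le x i
  simpa using this

lemma abs_hh_le (x : E3) : |hh x| ≤ 5 * (1 + ‖x‖ ^ 3) := by
  set n := ‖x‖ with hn
  have hn0 : 0 ≤ n := norm_nonneg x
  have h0 : |x 0| ≤ n := abs_coord_le x 0
  have h1 : |x 1| ≤ n := abs_coord_le x 1
  have h2 : |x 2| ≤ n := abs_coord_le x 2
  have h3 : |(x 1) ^ 3| ≤ n ^ 3 := by
    rw [abs_pow]; exact pow_le_pow_left₀ (abs_nonneg _) h1 3
  have h4 : |3 * (x 1) * (x 2) ^ 2| ≤ 3 * n ^ 3 := by
    rw [abs_mul, abs_mul, abs_pow, abs_of_pos (by norm_num : (0:ℝ) < 3)]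
    calc 3 * |x 1| * |x 2| ^ 2 ≤ 3 * n * n ^ 2 := by gcongr
      _ = 3 * n ^ 3 := by ring
  have h5 : |hh x| ≤ |x 0| + (|(x 1) ^ 3| + |3 * (x 1) * (x 2) ^ 2|) := by
    unfold hh
    refine (abs_add_le _ _).trans ?_
    gcongr
    exact abs_sub _ _
  have h6 : n ≤ 1 + n ^ 3 := by
    rcases le_total n 1 with h | h
    · nlinarith [pow_nonneg hn0 3]
    · nlinarith [mul_nonneg hn0 hn0, mul_self_nonneg (n - 1)]
  nlinarith [pow_nonneg hn0 3]

/-- The whole construction. -/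
theorem main {f : ℝ → ℝ} (hf : ContDiff ℝ 1 f) (hfc : HasCompactSupport f) :
    ∃ u : E3 → ℝ, ContDiff ℝ 2 u ∧ (∀ x, Δ u x = f (u x)) ∧
    (∃ C : ℝ, ∀ x, |u x| ≤ C * (1 + ‖x‖ ^ 3)) ∧
    (∀ x, 0 < fderiv ℝ u x (ob 0)) ∧
    (∀ α β : ℝ, 0 < α → 0 < β → ∃ Φ : E3 ≃ₜ E3, ∀ x, u x = α * max ((Φ x) 0) 0 - β * max (-((Φ x) 0)) 0) ∧
    ¬ ∃ (R : E3 ≃ᵢ E3) (V : ℝ → ℝ), ∀ x, u (R x) = V (x 0) := by
  obtain ⟨K, hK, v, hv2, hvb, hvg, hvl⟩ := exists_perturbation hf hfc
  refine ⟨fun X => K * hh X + v X, ?_, ?_, ?_, ?_, ?_, ?_⟩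
  · exact (contDiff_const.mul contDiff_hh).add hv2
  · intro X
    have hKh : ContDiff ℝ 2 (K • hh) := contDiff_const.smul contDiff_hh
    have h1 : Δ (K • hh + v) X = Δ (K • hh) X + Δ v X :=
      ContDiffAt.laplacian_add hKh.contDiffAt hv2.contDiffAt
    have h2 : (fun X => K * hh X + v X) = K • hh + v := rfl
    have h3 : Δ (K • hh) X = K • Δ hh X := laplacian_smul K contDiff_hh.contDiffAt
    rw [h2, h1, h3, laplacian_hh, smul_zero, zero_add, hvl]
    rfl
  · refine ⟨5 * K + 1, fun x => ?_⟩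
    have h1 := abs_hh_le x
    have h2 := hvb x
    have h3 : |K * hh x + v x| ≤ K * |hh x| + |v x| := by
      refine (abs_add_le _ _).trans ?_
      rw [abs_mul, abs_of_nonneg (by linarith : 0 ≤ K)]
    have h4 : 0 ≤ ‖x‖ ^ 3 := by positivity
    nlinarith
  · intro x
    have h1 : HasFDerivAt (fun X => K * hh X + v X) (K • hh1 x + fderiv ℝ v x) x :=
      ((hasFDerivAt_hh x).const_mul K).add ((hv2.differentiable two_ne_zero) x).hasFDerivAt
    rw [h1.fderiv]
    have h2 : |fderiv ℝ v x (ob 0)| ≤ 1/2 := by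
      have h3 := (fderiv ℝ v x).le_opNorm (ob 0)
      rw [ob.norm_eq_one, mul_one, Real.norm_eq_abs] at h3
      exact h3.trans (hvg x)
    have h4 : (K • hh1 x + fderiv ℝ v x) (ob 0) = K + fderiv ℝ v x (ob 0) := by
      simp only [hh1, add_apply, sub_apply, smul_apply, pr_apply, smul_eq_mul]
      simp [ob]
    rw [h4]
    rw [abs_le] at h2
    linarith [h2.1]
  · intro α β hα hβ
    set u : E3 → ℝ := fun X => K * hh X + v X with hu
    have hucont : Continuous u := (continuous_const.mul continuous_hh).add hv2.continuous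
    have hslope : ∀ (X : E3) (t : ℝ), 0 ≤ t → (1/2) * t ≤ u (X + t • ob 0) - u X := by
      intro X t ht
      have h1 : hh (X + t • ob 0) - hh X = t := by
        have e0 : (X + t • ob 0) 0 = X 0 + t := by
          rw [PiLp.add_apply, PiLp.smul_apply, ob0_zero, smul_eq_mul, mul_one]
        have e1 : (X + t • ob 0) 1 = X 1 := by simp [ob]
        have e2 : (X + t • ob 0) 2 = X 2 := by simp [ob]
        simp only [hh, e0, e1, e2]
        ring
      have h2 : |v (X + t • ob 0) - v X| ≤ (1/2) * t := by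
        have h3 := Convex.norm_image_sub_le_of_norm_fderiv_le (𝕜 := ℝ) (f := v) (C := 1/2)
          (s := univ) (x := X) (y := X + t • ob 0)
          (fun x _ => (hv2.differentiable two_ne_zero) x) (fun x _ => hvg x) convex_univ
          (mem_univ _) (mem_univ _)
        rw [add_sub_cancel_left, norm_smul, ob.norm_eq_one, mul_one, Real.norm_of_nonneg ht,
          Real.norm_eq_abs] at h3
        exact h3
      rw [abs_le] at h2
      have h4 : u (X + t • ob 0) - u X =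
          K * (hh (X + t • ob 0) - hh X) + (v (X + t • ob 0) - v X) := by
        simp only [hu]; ring
      rw [h4, h1]
      nlinarith [h2.1]
    have hm : 0 < min α⁻¹ β⁻¹ := lt_min (inv_pos.mpr hα) (inv_pos.mpr hβ)
    obtain ⟨Φ, hΦ⟩ := exists_homeo (w := fun X => α⁻¹ * max (u X) 0 - β⁻¹ * max (-(u X)) 0)
      (c := min α⁻¹ β⁻¹ * (1/2)) (by fun_prop) (by positivity) (by
        intro X t ht
        have h1 := hslope X t ht
        have h2 : u X ≤ u (X + t • ob 0) := by linarith [mul_nonneg (by norm_num : (0:ℝ) ≤ 1/2) ht]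
        have h3 := slope_inv hα hβ h2
        have h4 := mul_le_mul_of_nonneg_left h1 hm.le
        calc min α⁻¹ β⁻¹ * (1/2) * t = min α⁻¹ β⁻¹ * ((1/2) * t) := by ring
          _ ≤ _ := h4.trans h3)
    refine ⟨Φ, fun x => ?_⟩
    rw [hΦ x]
    exact (profile_inv hα hβ (u x)).symm
  · exact not_oneDim (u := fun X => K * hh X + v X) hK (fun X => by
      have : K * hh X + v X - K * hh X = v X := by ring
      rw [this]
      exact hvb X)

end Pool.Agent.Lib.MP_9aae89_an
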