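import Pool.Agent.Lib.MP_9aae89_an.Second

/-!
Newton potentials of compactly supported `C¹` densities.
-/

namespace Pool.Agent.Lib.MP_9aae89_an

open MeasureTheory Set Filter Topology Metric InnerProductSpace Laplacian
open scoped ENNReal RealInnerProductSpace Convolution

lemma locallyIntegrable_WW : LocallyIntegrable WW (volume : Measure E3) := by
  have h1 : LocallyIntegrable wn (volume : Measure E3) := integrable_wn.locallyIntegrable
  have h2 : LocallyIntegrable ww (volume : Measure E3) := by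
    have : Continuous ww := by
      unfold ww
      refine Continuous.inv₀ (by fun_prop) (fun Z => ?_)
      have : 0 < max 1 ‖Z‖ := lt_max_of_lt_left one_pos
      exact this.ne'
    exact this.locallyIntegrable
  exact h1.add h2

lemma locallyIntegrable_kd' : LocallyIntegrable (kd' 0) (volume : Measure E3) := by
  refine locallyIntegrable_WW.mono (stronglyMeasurable_kd' 0).aestronglyMeasurable ?_
  filter_upwards [ae_ne_E3 0] with Z hZ
  have := norm_kd'_zero_le hZ
  rw [one_mul] at this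
  rwa [Real.norm_of_nonneg (WW_nonneg Z)]

/-- Differentiation of a convolution-type potential with a compactly supported `C¹` density. -/
lemma conv_deriv {V : Type*} [NormedAddCommGroup V] [NormedSpace ℝ V] [CompleteSpace V] {κ : E3 → V}
    (hκ : LocallyIntegrable κ (volume : Measure E3)) {ψ : E3 → ℝ} (hψ : ContDiff ℝ 1 ψ)
    (hc : HasCompactSupport ψ) :
    ContDiff ℝ 1 (pot κ ψ) ∧ ∃ D : E3 → E3 →L[ℝ] V, (∀ X, HasFDerivAt (pot κ ψ) (D X) X) ∧
      ∀ X a, Integrable (fun t => (fderiv ℝ ψ (X - t) a) • κ t) volume ∧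
        D X a = ∫ t, (fderiv ℝ ψ (X - t) a) • κ t := by
  set LL : V →L[ℝ] ℝ →L[ℝ] V := (ContinuousLinearMap.lsmul ℝ ℝ).flip with hLL
  have LL_apply : ∀ (v : V) (s : ℝ), LL v s = s • v := fun v s => by simp [hLL]
  have hconv : pot κ ψ = κ ⋆[LL, volume] ψ := by
    ext1 X
    unfold pot convolution
    rw [← integral_sub_left_eq_self (fun Y => ψ Y • κ (X - Y)) volume X]
    congr 1
    ext1 t
    rw [LL_apply, sub_sub_cancel]
  have hψ' : Continuous (fderiv ℝ ψ) := hψ.continuous_fderiv one_ne_zero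
  have hc' : HasCompactSupport (fderiv ℝ ψ) := hc.fderiv ℝ
  refine ⟨?_, (κ ⋆[LL.precompR E3, volume] fderiv ℝ ψ), ?_, ?_⟩
  · rw [hconv]
    have := hc.contDiff_convolution_right (n := 1) LL hκ (by exact_mod_cast hψ)
    exact_mod_cast this
  · intro X
    rw [hconv]
    exact hc.hasFDerivAt_convolution_right LL hκ hψ X
  · intro X a
    have hcc : HasCompactSupport (fun Y => fderiv ℝ ψ Y a) :=
      hc'.comp_left (g := fun T : E3 →L[ℝ] ℝ => T a) rfl
    have hcont : Continuous (fun Y => fderiv ℝ ψ Y a) := by fun_prop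
    have hI : Integrable (fun t => (fderiv ℝ ψ (X - t) a) • κ t) volume := by
      have := hcc.convolutionExists_right LL hκ hcont X
      simpa only [ConvolutionExistsAt, LL_apply] using this
    refine ⟨hI, ?_⟩
    rw [convolution_precompR_apply LL hκ hc' hψ']
    unfold convolution
    simp only [LL_apply]

lemma sum_ob_apply (T : E3 →L[ℝ] ℝ) (Z : E3) : ∑ i, T (ob i) * Z i = T Z := by
  have h1 : Z = ∑ i, Z i • ob i := by
    have := ob.sum_repr Z
    conv_lhs => rw [← this]
    congr 1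
  conv_rhs => rw [h1]
  rw [map_sum]
  congr 1
  ext i
  rw [map_smul, smul_eq_mul, mul_comm]

/-- The Newton potential of a compactly supported `C¹` density is `C²` and solves the
Poisson equation. -/
theorem near_C2 {S : Set E3} {M : ℝ} (hS : Good S M) {ψ : E3 → ℝ} {A : ℝ} (hψ : ContDiff ℝ 1 ψ)
    (hc : HasCompactSupport ψ) (hg : Dens S ψ A) :
    ContDiff ℝ 2 (pot (kd 0) ψ) ∧ ∀ X, Δ (pot (kd 0) ψ) X = -(c0 * ψ X) := by
  obtain ⟨hD1, _⟩ := newton_C1 hS hg
  have hfd : fderiv ℝ (pot (kd 0) ψ) = pot (kd' 0) ψ := by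
    ext1 X; exact (hD1 X).fderiv
  obtain ⟨hcd1, D, hD, hDa⟩ := conv_deriv (V := E3 →L[ℝ] ℝ) locallyIntegrable_kd' hψ hc
  constructor
  · have h3 : (((1 : ℕ) : WithTop ℕ∞) + 1) = 2 := by norm_num
    rw [← h3]
    rw [contDiff_succ_iff_fderiv]
    refine ⟨fun X => (hD1 X).differentiableAt, by simp, ?_⟩
    rw [hfd]
    exact_mod_cast hcd1
  · intro X
    rw [laplacian_of_hasFDerivAt (Eventually.of_forall hD1) (hD X)]
    have h4 : ∀ a b, D X a b = ∫ t, fderiv ℝ ψ (X - t) a * kd' 0 t b := by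
      intro a b
      rw [(hDa X a).2, ContinuousLinearMap.integral_apply (hDa X a).1]
      rfl
    have hI2 : ∀ a b, Integrable (fun t => fderiv ℝ ψ (X - t) a * kd' 0 t b) volume := fun a b =>
      (hDa X a).1.apply_continuousLinearMap b
    simp_rw [h4]
    rw [← integral_finsetSum _ (fun i _ => hI2 (ob i) (ob i))]
    have h5 : ∀ t, ∑ i, fderiv ℝ ψ (X - t) (ob i) * kd' 0 t (ob i) =
        -((‖t‖ ^ 3)⁻¹ * fderiv ℝ ψ (X - t) t) := by
      intro t
      rw [← sum_ob_apply (fderiv ℝ ψ (X - t)) t, Finset.mul_sum, ← Finset.sum_neg_distrib]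
      congr 1
      ext i
      simp only [kd', rho_zero, smul_apply, BB_apply, inner_ob, smul_eq_mul]
      ring
    have h6 : Integrable (fun t : E3 => (‖t‖ ^ 3)⁻¹ * fderiv ℝ ψ (X - t) t) volume := by
      have h7 : Integrable (fun t => ∑ i, fderiv ℝ ψ (X - t) (ob i) * kd' 0 t (ob i)) volume :=
        integrable_finsetSum _ (fun i _ => hI2 (ob i) (ob i))
      simp_rw [h5] at h7
      simpa using h7.neg
    simp_rw [h5]
    rw [integral_neg, flux hψ hc X h6]

end Pool.Agent.Lib.MP_9aae89_an
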