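import Pool.Agent.Lib.MP_9aae89_an.Potential

/-!
The Newton kernel `1/|Z|` in three dimensions, its regularisations and its derivatives.
-/

namespace Pool.Agent.Lib.MP_9aae89_an

open MeasureTheory Set Filter Topology Metric
open scoped ENNReal RealInnerProductSpace

/-- The inner product as a continuous bilinear map. -/
noncomputable def BB : E3 →L[ℝ] E3 →L[ℝ] ℝ :=
  (isBoundedBilinearMap_inner (𝕜 := ℝ) (E := E3)).toContinuousLinearMap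

@[simp] lemma BB_apply (x y : E3) : BB x y = ⟪x, y⟫ := rfl

lemma norm_BB_le (x : E3) : ‖BB x‖ ≤ ‖x‖ := by
  refine ContinuousLinearMap.opNorm_le_bound _ (norm_nonneg _) (fun y => ?_)
  rw [BB_apply]
  exact norm_inner_le_norm x y

/-- Regularised distance. -/
noncomputable def rho (δ : ℝ) (Z : E3) : ℝ := Real.sqrt (‖Z‖ ^ 2 + δ ^ 2)

/-- Regularised Newton kernel. -/
noncomputable def kd (δ : ℝ) (Z : E3) : ℝ := (rho δ Z)⁻¹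

/-- Derivative of the regularised Newton kernel. -/
noncomputable def kd' (δ : ℝ) (Z : E3) : E3 →L[ℝ] ℝ := (-((rho δ Z) ^ 3)⁻¹) • BB Z

/-- Second derivative of the Newton kernel. -/
noncomputable def kd'' (Z : E3) : E3 →L[ℝ] E3 →L[ℝ] ℝ :=
  (-(‖Z‖ ^ 3)⁻¹) • BB + (3 * (‖Z‖ ^ 5)⁻¹) • (BB Z).smulRight (BB Z)

lemma rho_nonneg (δ : ℝ) (Z : E3) : 0 ≤ rho δ Z := Real.sqrt_nonneg _

lemma rho_sq (δ : ℝ) (Z : E3) : rho δ Z ^ 2 = ‖Z‖ ^ 2 + δ ^ 2 := Real.sq_sqrt (by positivity)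

@[simp] lemma rho_zero (Z : E3) : rho 0 Z = ‖Z‖ := by
  unfold rho; rw [zero_pow two_ne_zero, add_zero, Real.sqrt_sq (norm_nonneg _)]

lemma norm_le_rho (δ : ℝ) (Z : E3) : ‖Z‖ ≤ rho δ Z :=
  Real.le_sqrt_of_sq_le (by nlinarith [sq_nonneg δ])

lemma le_rho {δ : ℝ} (Z : E3) : δ ≤ rho δ Z :=
  Real.le_sqrt_of_sq_le (by nlinarith [sq_nonneg ‖Z‖])

lemma rho_le {δ : ℝ} (hδ : 0 ≤ δ) (Z : E3) : rho δ Z ≤ ‖Z‖ + δ := by
  unfold rho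
  rw [Real.sqrt_le_left (by positivity)]
  nlinarith [norm_nonneg Z, mul_nonneg (norm_nonneg Z) hδ]

lemma hasFDerivAt_kd {δ : ℝ} {Z : E3} (h : 0 < ‖Z‖ ^ 2 + δ ^ 2) :
    HasFDerivAt (kd δ) (kd' δ Z) Z := by
  have h1 : HasFDerivAt (fun Z : E3 => ‖Z‖ ^ 2 + δ ^ 2) (2 • (innerSL ℝ Z)) Z :=
    (hasStrictFDerivAt_norm_sq Z).hasFDerivAt.add_const _
  have hρ : 0 < rho δ Z := Real.sqrt_pos.mpr h
  have h2 : HasDerivAt (fun s : ℝ => (Real.sqrt s)⁻¹)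
      (-(1 / (2 * Real.sqrt (‖Z‖ ^ 2 + δ ^ 2))) / (Real.sqrt (‖Z‖ ^ 2 + δ ^ 2)) ^ 2) (‖Z‖ ^ 2 + δ ^ 2) :=
    (Real.hasDerivAt_sqrt h.ne').inv hρ.ne'
  have h3 := h2.comp_hasFDerivAt Z h1
  have h4 : HasFDerivAt (kd δ) _ Z := h3
  refine h4.congr_fderiv ?_
  ext ξ
  have e1 : Real.sqrt (‖Z‖ ^ 2 + δ ^ 2) = rho δ Z := rfl
  rw [e1]
  simp only [kd', smul_apply, BB_apply, innerSL_apply_apply, nsmul_eq_mul, smul_eq_mul]
  field_simp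
  push_cast
  ring

lemma hasFDerivAt_kd' {Z : E3} (h : Z ≠ 0) :
    HasFDerivAt (kd' 0) (kd'' Z) Z := by
  have hn : 0 < ‖Z‖ := norm_pos_iff.mpr h
  have hn2 : 0 < ‖Z‖ ^ 2 + (0:ℝ) ^ 2 := by positivity
  have h1 : HasFDerivAt (kd 0) (kd' 0 Z) Z := hasFDerivAt_kd hn2
  have h2 : HasFDerivAt (fun Z => -(kd 0 Z) ^ 3) _ Z := (h1.pow 3).neg
  have h3 : HasFDerivAt (fun Z => (-(kd 0 Z) ^ 3) • BB Z) _ Z := h2.smul BB.hasFDerivAt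
  have h4 : kd' 0 = fun Z => (-(kd 0 Z) ^ 3) • BB Z := by
    ext Z ξ
    simp [kd', kd, inv_pow]
  rw [h4]
  refine h3.congr_fderiv ?_
  ext ξ η
  simp only [kd'', kd, kd', rho_zero, add_apply, smul_apply,
    ContinuousLinearMap.smulRight_apply, BB_apply, neg_apply, smul_eq_mul,
    nsmul_eq_mul, Nat.reduceSub, inv_pow]
  field_simp
  push_cast
  ring

/-! ### Bounds -/

lemma rpow_le_WW {Z : E3} (hZ : Z ≠ 0) {p : ℝ} (hp1 : 1 ≤ p) (hp2 : p ≤ 5/2) :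
    ‖Z‖ ^ (-p) ≤ WW Z := by
  have hn : 0 < ‖Z‖ := norm_pos_iff.mpr hZ
  rcases le_or_gt ‖Z‖ 1 with h | h
  · have h1 : wn Z = ‖Z‖ ^ (-(5/2) : ℝ) := by simp [wn, h]
    calc ‖Z‖ ^ (-p) ≤ ‖Z‖ ^ (-(5/2) : ℝ) :=
          Real.rpow_le_rpow_of_exponent_ge hn h (by linarith)
      _ = wn Z := h1.symm
      _ ≤ WW Z := le_add_of_nonneg_right (ww_nonneg Z)
  · have h1 : ww Z = ‖Z‖⁻¹ := by
      unfold ww; rw [max_eq_right h.le]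
    calc ‖Z‖ ^ (-p) ≤ ‖Z‖ ^ (-1 : ℝ) :=
          Real.rpow_le_rpow_of_exponent_le h.le (by linarith)
      _ = ‖Z‖⁻¹ := Real.rpow_neg_one _
      _ = ww Z := h1.symm
      _ ≤ WW Z := ww_le_WW Z

lemma inv_le_WW {Z : E3} (hZ : Z ≠ 0) : ‖Z‖⁻¹ ≤ WW Z := by
  have := rpow_le_WW hZ (p := 1) le_rfl (by norm_num)
  rwa [Real.rpow_neg_one] at this

lemma inv_sq_le_WW {Z : E3} (hZ : Z ≠ 0) : (‖Z‖ ^ 2)⁻¹ ≤ WW Z := by
  have := rpow_le_WW hZ (p := 2) (by norm_num) (by norm_num)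
  rwa [Real.rpow_neg (norm_nonneg _), Real.rpow_two] at this

lemma norm_kd'_le (δ : ℝ) (Z : E3) : ‖kd' δ Z‖ ≤ ((rho δ Z) ^ 3)⁻¹ * ‖Z‖ := by
  unfold kd'
  rw [norm_smul, norm_neg, Real.norm_of_nonneg (by have := rho_nonneg δ Z; positivity)]
  exact mul_le_mul_of_nonneg_left (norm_BB_le Z) (by have := rho_nonneg δ Z; positivity)

lemma norm_kd_zero_le {Z : E3} (hZ : Z ≠ 0) : ‖kd 0 Z‖ ≤ 1 * WW Z := by
  rw [one_mul]
  unfold kd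
  rw [rho_zero, norm_inv, norm_norm]
  exact inv_le_WW hZ

lemma norm_kd'_zero_le {Z : E3} (hZ : Z ≠ 0) : ‖kd' 0 Z‖ ≤ 1 * WW Z := by
  have hn : 0 < ‖Z‖ := norm_pos_iff.mpr hZ
  refine (norm_kd'_le 0 Z).trans ?_
  rw [rho_zero, one_mul]
  have : (‖Z‖ ^ 3)⁻¹ * ‖Z‖ = (‖Z‖ ^ 2)⁻¹ := by field_simp
  rw [this]
  exact inv_sq_le_WW hZ

lemma rho_lower {δ : ℝ} (hδ1 : δ ≤ 1) (Z : E3) : δ * max 1 ‖Z‖ ≤ rho δ Z := by
  rcases le_total ‖Z‖ 1 with h | h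
  · rw [max_eq_left h, mul_one]; exact le_rho Z
  · rw [max_eq_right h]
    refine le_trans ?_ (norm_le_rho δ Z)
    exact mul_le_of_le_one_left (norm_nonneg _) hδ1

lemma rho_inv_le {δ : ℝ} (hδ : 0 < δ) (hδ1 : δ ≤ 1) (Z : E3) : (rho δ Z)⁻¹ ≤ δ⁻¹ * ww Z := by
  have h1 := rho_lower hδ1 Z
  have h2 : 0 < δ * max 1 ‖Z‖ := by positivity
  unfold ww
  rw [← mul_inv]
  exact inv_anti₀ h2 h1

lemma norm_kd_le {δ : ℝ} (hδ : 0 < δ) (hδ1 : δ ≤ 1) (Z : E3) : ‖kd δ Z‖ ≤ (δ⁻¹) ^ 2 * ww Z := by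
  unfold kd
  rw [Real.norm_of_nonneg (inv_nonneg.mpr (rho_nonneg _ _))]
  refine (rho_inv_le hδ hδ1 Z).trans ?_
  apply mul_le_mul_of_nonneg_right _ (ww_nonneg Z)
  have : 1 ≤ δ⁻¹ := (one_le_inv₀ hδ).mpr hδ1
  nlinarith

lemma norm_kd'_le' {δ : ℝ} (hδ : 0 < δ) (hδ1 : δ ≤ 1) (Z : E3) :
    ‖kd' δ Z‖ ≤ (δ⁻¹) ^ 2 * ww Z := by
  have hρ : 0 < rho δ Z := lt_of_lt_of_le hδ (le_rho Z)
  refine (norm_kd'_le δ Z).trans ?_
  have h1 : ((rho δ Z) ^ 3)⁻¹ * ‖Z‖ ≤ (rho δ Z)⁻¹ * (rho δ Z)⁻¹ := by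
    have h2 : ‖Z‖ ≤ rho δ Z := norm_le_rho δ Z
    calc ((rho δ Z) ^ 3)⁻¹ * ‖Z‖ ≤ ((rho δ Z) ^ 3)⁻¹ * rho δ Z := by gcongr
      _ = (rho δ Z)⁻¹ * (rho δ Z)⁻¹ := by field_simp
  refine h1.trans ?_
  have h3 := rho_inv_le hδ hδ1 Z
  have h4 : (rho δ Z)⁻¹ ≤ δ⁻¹ := inv_anti₀ hδ (le_rho Z)
  have h5 : 0 ≤ (rho δ Z)⁻¹ := inv_nonneg.mpr hρ.le
  have h6 : 0 ≤ δ⁻¹ := inv_nonneg.mpr hδ.le
  calc (rho δ Z)⁻¹ * (rho δ Z)⁻¹ ≤ δ⁻¹ * (δ⁻¹ * ww Z) := mul_le_mul h4 h3 h5 h6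
    _ = (δ⁻¹) ^ 2 * ww Z := by ring

lemma kd_sub_le {δ : ℝ} (hδ : 0 < δ) {Z : E3} (hZ : Z ≠ 0) :
    ‖kd δ Z - kd 0 Z‖ ≤ δ * WW Z := by
  have hn : 0 < ‖Z‖ := norm_pos_iff.mpr hZ
  have hρ : 0 < rho δ Z := lt_of_lt_of_le hδ (le_rho Z)
  have h1 := norm_le_rho δ Z
  have h2 := rho_le hδ.le Z
  unfold kd
  rw [rho_zero]
  have h3 : (rho δ Z)⁻¹ - ‖Z‖⁻¹ = -((rho δ Z - ‖Z‖) / (‖Z‖ * rho δ Z)) := by
    field_simp
    ring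
  rw [h3, norm_neg, Real.norm_of_nonneg (by apply div_nonneg <;> [linarith; positivity])]
  calc (rho δ Z - ‖Z‖) / (‖Z‖ * rho δ Z) ≤ δ / (‖Z‖ * ‖Z‖) := by
        apply div_le_div₀ hδ.le (by linarith) (by positivity)
        gcongr
    _ = δ * (‖Z‖ ^ 2)⁻¹ := by rw [← pow_two, div_eq_mul_inv]
    _ ≤ δ * WW Z := mul_le_mul_of_nonneg_left (inv_sq_le_WW hZ) hδ.le

lemma kd'_sub_le {δ : ℝ} (hδ : 0 < δ) {Z : E3} (hZ : Z ≠ 0) :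
    ‖kd' δ Z - kd' 0 Z‖ ≤ (3 * Real.sqrt δ) * WW Z := by
  have hn : 0 < ‖Z‖ := norm_pos_iff.mpr hZ
  have hρ : 0 < rho δ Z := lt_of_lt_of_le hδ (le_rho Z)
  have h1 := norm_le_rho δ Z
  have h2 := rho_le hδ.le Z
  set n := ‖Z‖ with hndef
  set ρ := rho δ Z with hρdef
  have h3 : kd' δ Z - kd' 0 Z = ((n ^ 3)⁻¹ - (ρ ^ 3)⁻¹) • BB Z := by
    ext ξ
    simp only [kd', rho_zero, sub_apply, smul_apply, smul_eq_mul, ← hndef, ← hρdef]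
    ring
  rw [h3, norm_smul]
  have h4 : (n ^ 3)⁻¹ - (ρ ^ 3)⁻¹ = (ρ - n) * (ρ ^ 2 + ρ * n + n ^ 2) / (n ^ 3 * ρ ^ 3) := by
    field_simp
    ring
  have hd : 0 ≤ ρ - n := by linarith
  have h5 : 0 ≤ (n ^ 3)⁻¹ - (ρ ^ 3)⁻¹ := by
    rw [h4]; positivity
  rw [Real.norm_of_nonneg h5]
  have h6 : ρ ^ 2 + ρ * n + n ^ 2 ≤ 3 * ρ ^ 2 := by nlinarith
  have h7 : ((n ^ 3)⁻¹ - (ρ ^ 3)⁻¹) * ‖BB Z‖ ≤ 3 * ((ρ - n) / ρ) * (n ^ 2)⁻¹ := by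
    calc ((n ^ 3)⁻¹ - (ρ ^ 3)⁻¹) * ‖BB Z‖ ≤ ((n ^ 3)⁻¹ - (ρ ^ 3)⁻¹) * n :=
          mul_le_mul_of_nonneg_left (norm_BB_le Z) h5
      _ = (ρ - n) * (ρ ^ 2 + ρ * n + n ^ 2) / (n ^ 3 * ρ ^ 3) * n := by rw [h4]
      _ ≤ (ρ - n) * (3 * ρ ^ 2) / (n ^ 3 * ρ ^ 3) * n := by gcongr
      _ = 3 * ((ρ - n) / ρ) * (n ^ 2)⁻¹ := by field_simp
  refine h7.trans ?_
  -- (ρ - n)/ρ ≤ sqrt δ * n^{-1/2}
  have h8 : (ρ - n) / ρ ≤ Real.sqrt δ * n ^ (-(1/2) : ℝ) := by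
    have h9 : n ^ (-(1/2) : ℝ) = (Real.sqrt n)⁻¹ := by
      rw [Real.rpow_neg hn.le, Real.sqrt_eq_rpow]
    rw [h9, ← div_eq_mul_inv, ← Real.sqrt_div hδ.le]
    apply Real.le_sqrt_of_sq_le
    have h10 : (ρ - n) / ρ ≤ 1 := by rw [div_le_one hρ]; linarith
    have h11 : 0 ≤ (ρ - n) / ρ := div_nonneg hd hρ.le
    have h12 : (ρ - n) / ρ ≤ δ / n := by
      apply div_le_div₀ hδ.le (by linarith) hn h1
    nlinarith
  have h13 : n ^ (-(1/2) : ℝ) * (n ^ 2)⁻¹ = n ^ (-(5/2) : ℝ) := by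
    rw [← Real.rpow_natCast n 2, ← Real.rpow_neg hn.le, ← Real.rpow_add hn]
    norm_num
  have h14 := rpow_le_WW hZ (p := 5/2) (by norm_num) le_rfl
  calc 3 * ((ρ - n) / ρ) * (n ^ 2)⁻¹ ≤ 3 * (Real.sqrt δ * n ^ (-(1/2) : ℝ)) * (n ^ 2)⁻¹ := by gcongr
    _ = (3 * Real.sqrt δ) * n ^ (-(5/2) : ℝ) := by rw [← h13]; ring
    _ ≤ (3 * Real.sqrt δ) * WW Z := mul_le_mul_of_nonneg_left h14 (by positivity)

/-! ### Measurability -/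

lemma stronglyMeasurable_kd (δ : ℝ) : StronglyMeasurable (kd δ) := by
  apply Measurable.stronglyMeasurable
  unfold kd rho
  fun_prop

lemma stronglyMeasurable_kd' (δ : ℝ) : StronglyMeasurable (kd' δ) := by
  have h1 : StronglyMeasurable (fun Z : E3 => -((rho δ Z) ^ 3)⁻¹) := by
    apply Measurable.stronglyMeasurable
    unfold rho
    fun_prop
  have h2 : StronglyMeasurable (fun Z : E3 => BB Z) := BB.continuous.stronglyMeasurable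
  exact h1.smul h2

lemma stronglyMeasurable_kd'' : StronglyMeasurable kd'' := by
  have h1 : StronglyMeasurable (fun Z : E3 => -(‖Z‖ ^ 3)⁻¹) := by
    apply Measurable.stronglyMeasurable
    fun_prop
  have h2 : StronglyMeasurable (fun Z : E3 => 3 * (‖Z‖ ^ 5)⁻¹) := by
    apply Measurable.stronglyMeasurable
    fun_prop
  have h3 : Continuous (fun Z : E3 => (BB Z).smulRight (BB Z)) :=
    isBoundedBilinearMap_smulRight.continuous.comp (BB.continuous.prodMk BB.continuous)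
  have : ContinuousAdd (E3 →L[ℝ] E3 →L[ℝ] ℝ) :=
    (inferInstance : IsTopologicalAddGroup (E3 →L[ℝ] E3 →L[ℝ] ℝ)).toContinuousAdd
  exact (h1.smul stronglyMeasurable_const).add (h2.smul h3.stronglyMeasurable)

/-! ### First derivatives of Newton potentials -/

/-- Newton potentials of bounded densities carried by a good set are of class `C¹`. -/
theorem newton_C1 {S : Set E3} {M : ℝ} (hS : Good S M) {g : E3 → ℝ} {A : ℝ} (hg : Dens S g A) :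
    (∀ X, HasFDerivAt (pot (kd 0) g) (pot (kd' 0) g X) X) ∧ Continuous (pot (kd' 0) g) := by
  let d : ℕ → ℝ := fun n => (1 / ((n : ℝ) + 1)) ^ 2
  have hd0 : ∀ n, 0 < d n := fun n => by positivity
  have hd1 : ∀ n, d n ≤ 1 := fun n => by
    have h1 : 1 / ((n : ℝ) + 1) ≤ 1 := by
      rw [div_le_one (by positivity)]; linarith [Nat.cast_nonneg (α := ℝ) n]
    exact pow_le_one₀ (by positivity) h1
  have hsd : ∀ n, Real.sqrt (d n) = 1 / ((n : ℝ) + 1) := fun n =>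
    Real.sqrt_sq (by positivity)
  have hpos : ∀ n (Z : E3), 0 < ‖Z‖ ^ 2 + (d n) ^ 2 := fun n Z => by
    have := hd0 n; positivity
  refine pot_C1 hS (C := 1) zero_le_one (stronglyMeasurable_kd 0) (stronglyMeasurable_kd' 0)
    (fun Z hZ => norm_kd_zero_le hZ) (fun Z hZ => norm_kd'_zero_le hZ)
    (k := fun n => kd (d n)) (k' := fun n => kd' (d n)) (c := fun n => ((d n)⁻¹) ^ 2)
    (fun n => by positivity) (fun n Z => hasFDerivAt_kd (hpos n Z)) ?_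
    (fun n Z => norm_kd_le (hd0 n) (hd1 n) Z) (fun n Z => norm_kd'_le' (hd0 n) (hd1 n) Z)
    (ε := fun n => 3 * Real.sqrt (d n)) (fun n => by positivity) ?_ ?_
    (fun n Z hZ => kd'_sub_le (hd0 n) hZ) hg
  · intro n
    have h1 : Continuous (fun Z : E3 => -((rho (d n) Z) ^ 3)⁻¹) := by
      have h2 : Continuous (fun Z : E3 => rho (d n) Z) := by unfold rho; fun_prop
      have h3 : ∀ Z : E3, (rho (d n) Z) ^ 3 ≠ 0 := fun Z => by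
        have : 0 < rho (d n) Z := lt_of_lt_of_le (hd0 n) (le_rho Z)
        positivity
      exact ((h2.pow 3).inv₀ h3).neg
    exact h1.smul BB.continuous
  · have h1 : Tendsto (fun n : ℕ => 3 * (1 / ((n : ℝ) + 1))) atTop (𝓝 (3 * 0)) :=
      tendsto_one_div_add_atTop_nhds_zero_nat.const_mul 3
    rw [mul_zero] at h1
    simpa only [hsd] using h1
  · intro n Z hZ
    refine (kd_sub_le (hd0 n) hZ).trans ?_
    apply mul_le_mul_of_nonneg_right _ (WW_nonneg Z)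
    have h1 : d n = Real.sqrt (d n) ^ 2 := (Real.sq_sqrt (hd0 n).le).symm
    have h2 : Real.sqrt (d n) ≤ 1 := by rw [Real.sqrt_le_one]; exact hd1 n
    have h3 : 0 ≤ Real.sqrt (d n) := Real.sqrt_nonneg _
    nlinarith

end Pool.Agent.Lib.MP_9aae89_an
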