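import Pool.Agent.Lib.MP_9aae89_an.Near

/-!
The Poisson equation for `C¹` densities carried by the layer.
-/

namespace Pool.Agent.Lib.MP_9aae89_an

open MeasureTheory Set Filter Topology Metric InnerProductSpace Laplacian
open scoped ENNReal RealInnerProductSpace

variable {S : Set E3} {M : ℝ}

lemma pot_add_density (hS : Good S M) {g₁ g₂ : E3 → ℝ} {A₁ A₂ : ℝ} (h₁ : Dens S g₁ A₁)
    (h₂ : Dens S g₂ A₂) :
    pot (kd 0) (fun Y => g₁ Y + g₂ Y) = pot (kd 0) g₁ + pot (kd 0) g₂ := by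
  ext X
  have i₁ := integrable_integrand hS (stronglyMeasurable_kd 0) zero_le_one
    (fun Z hZ => norm_kd_zero_le hZ) h₁ X
  have i₂ := integrable_integrand hS (stronglyMeasurable_kd 0) zero_le_one
    (fun Z hZ => norm_kd_zero_le hZ) h₂ X
  rw [Pi.add_apply]
  unfold pot
  rw [← integral_add i₁ i₂]
  congr 1
  ext Y
  rw [add_smul]

/-- **Poisson equation** for the Newton potential of a bounded `C¹` density carried by a good set. -/
theorem poisson (hS : Good S M) {g : E3 → ℝ} {A : ℝ} (hg : Dens S g A) (hg1 : ContDiff ℝ 1 g) :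
    ContDiff ℝ 2 (pot (kd 0) g) ∧ ∀ X, Δ (pot (kd 0) g) X = -(c0 * g X) := by
  have key : ∀ X₀, ContDiffAt ℝ 2 (pot (kd 0) g) X₀ ∧ Δ (pot (kd 0) g) X₀ = -(c0 * g X₀) := by
    intro X₀
    let χ : ContDiffBump X₀ := ⟨1, 2, one_pos, one_lt_two⟩
    set ψ : E3 → ℝ := fun Y => χ Y * g Y with hψdef
    set g₂ : E3 → ℝ := fun Y => (1 - χ Y) * g Y with hg₂def
    have hχ0 : ∀ Y, 0 ≤ χ Y := fun Y => χ.nonneg
    have hχ1 : ∀ Y, χ Y ≤ 1 := fun Y => χ.le_one
    have hχc : Continuous (χ : E3 → ℝ) := χ.continuous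
    have hψ1 : ContDiff ℝ 1 ψ := (χ.contDiff (n := 1)).mul hg1
    have hψc : HasCompactSupport ψ := χ.hasCompactSupport.mul_right
    have hDψ : Dens S ψ A := by
      refine ⟨hψ1.continuous.aestronglyMeasurable, fun Y => ?_, fun Y hY => ?_⟩
      · rw [hψdef]
        simp only [abs_mul, abs_of_nonneg (hχ0 Y)]
        calc χ Y * |g Y| ≤ 1 * |g Y| := mul_le_mul_of_nonneg_right (hχ1 Y) (abs_nonneg _)
          _ = |g Y| := one_mul _
          _ ≤ A := hg.bd Y
      · simp [hψdef, hg.supp Y hY]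
    have hDg₂ : Dens S g₂ A := by
      refine ⟨(((continuous_const.sub hχc).mul hg1.continuous)).aestronglyMeasurable, fun Y => ?_, fun Y hY => ?_⟩
      · rw [hg₂def]
        have h0 : 0 ≤ 1 - χ Y := by linarith [hχ1 Y]
        simp only [abs_mul, abs_of_nonneg h0]
        calc (1 - χ Y) * |g Y| ≤ 1 * |g Y| :=
              mul_le_mul_of_nonneg_right (by linarith [hχ0 Y]) (abs_nonneg _)
          _ = |g Y| := one_mul _
          _ ≤ A := hg.bd Y
      · simp [hg₂def, hg.supp Y hY]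
    have hsum : (fun Y => ψ Y + g₂ Y) = g := by
      ext Y; simp only [hψdef, hg₂def]; ring
    have hpot : pot (kd 0) g = pot (kd 0) ψ + pot (kd 0) g₂ := by
      rw [← pot_add_density hS hDψ hDg₂, hsum]
    obtain ⟨hn1, hn2⟩ := near_C2 hS hψ1 hψc hDψ
    have hfar : ∀ Y, ‖Y - X₀‖ < 1 → g₂ Y = 0 := by
      intro Y hY
      have : Y ∈ closedBall X₀ (1:ℝ) := by
        rw [mem_closedBall, dist_eq_norm]; exact hY.le
      have h1 : χ Y = 1 := χ.one_of_mem_closedBall this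
      simp [hg₂def, h1]
    obtain ⟨hf1, hf2⟩ := far_C2 hS hDg₂ hfar
    rw [hpot]
    refine ⟨hn1.contDiffAt.add hf1, ?_⟩
    rw [ContDiffAt.laplacian_add hn1.contDiffAt hf1, hn2, hf2, add_zero]
    have h1 : χ X₀ = 1 := χ.one_of_mem_closedBall (mem_closedBall_self zero_le_one)
    simp [hψdef, h1]
  exact ⟨contDiff_iff_contDiffAt.mpr fun X => (key X).1, fun X => (key X).2⟩

end Pool.Agent.Lib.MP_9aae89_an
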