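import Pool.Agent.Lib.MP_9aae89_an.Newton

/-!
Polar coordinates and the flux identity for the Newton kernel.
-/

namespace Pool.Agent.Lib.MP_9aae89_an

open MeasureTheory Set Filter Topology Metric
open scoped ENNReal RealInnerProductSpace

lemma integral_polar (F : E3 → ℝ) (hF : Integrable F volume) :
    ∫ x, F x = ∫ ω : sphere (0 : E3) 1, (∫ r in Ioi (0 : ℝ), r ^ 2 * F (r • (ω : E3)))
      ∂((volume : Measure E3).toSphere) := by
  have hd : Module.finrank ℝ E3 = 3 := by simp
  set μ : Measure E3 := volume with hμ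
  have hmp := μ.measurePreserving_homeomorphUnitSphereProd
  rw [hd] at hmp
  have hemb := (homeomorphUnitSphereProd E3).measurableEmbedding
  have hint1 : Integrable (fun x : ({(0)}ᶜ : Set E3) => F x.1) (μ.comap (↑)) := by
    have h1 : IntegrableOn F ({(0)}ᶜ : Set E3) μ := hF.integrableOn
    rw [integrableOn_iff_comap_subtypeVal (by measurability)] at h1
    exact h1
  have hint2 : Integrable (fun p : sphere (0 : E3) 1 × Ioi (0 : ℝ) => F (p.2.1 • p.1.1))
      (μ.toSphere.prod (Measure.volumeIoiPow 2)) := by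
    have h2 := hmp.integrable_comp_emb (g := fun p : sphere (0 : E3) 1 × Ioi (0 : ℝ) => F (p.2.1 • p.1.1)) hemb
    refine h2.mp ?_
    refine hint1.congr (Eventually.of_forall fun x => ?_)
    have h4 : ‖x.1‖ • ‖x.1‖⁻¹ • x.1 = x.1 := by
      rw [smul_smul, mul_inv_cancel₀ (norm_ne_zero_iff.mpr x.2), one_smul]
    simp only [Function.comp, homeomorphUnitSphereProd_apply_fst_coe,
      homeomorphUnitSphereProd_apply_snd_coe, h4]
  calc ∫ x, F x ∂μ = ∫ x : ({(0)}ᶜ : Set E3), F x.1 ∂(μ.comap (↑)) := by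
        rw [integral_subtype_comap (measurableSet_singleton _).compl F, restrict_compl_singleton]
    _ = ∫ p : sphere (0 : E3) 1 × Ioi (0 : ℝ), F (p.2.1 • p.1.1) ∂(μ.toSphere.prod (Measure.volumeIoiPow 2)) := by
        rw [← hmp.integral_comp hemb]
        congr 1
        ext x
        have h4 : ‖x.1‖ • ‖x.1‖⁻¹ • x.1 = x.1 := by
          rw [smul_smul, mul_inv_cancel₀ (norm_ne_zero_iff.mpr x.2), one_smul]
        simp only [homeomorphUnitSphereProd_apply_fst_coe,
          homeomorphUnitSphereProd_apply_snd_coe, h4]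
    _ = ∫ ω : sphere (0 : E3) 1, ∫ r : Ioi (0 : ℝ), F (r.1 • ω.1) ∂(Measure.volumeIoiPow 2) ∂μ.toSphere :=
        integral_prod _ hint2
    _ = _ := by
        congr 1
        ext ω
        simp only [Measure.volumeIoiPow, ENNReal.ofReal]
        rw [integral_withDensity_eq_integral_smul,
          integral_subtype_comap measurableSet_Ioi fun a : ℝ ↦ Real.toNNReal (a ^ 2) • F (a • ω.1),
          setIntegral_congr_fun measurableSet_Ioi fun x hx ↦ ?_]
        · simp only [NNReal.smul_def, Real.coe_toNNReal _ (pow_nonneg (le_of_lt (mem_Ioi.mp hx)) 2), smul_eq_mul]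
        · exact (measurable_subtype_coe.pow_const _).real_toNNReal

/-- The area of the unit sphere. -/
noncomputable def c0 : ℝ := (volume : Measure E3).toSphere.real univ

lemma c0_pos : 0 < c0 := by
  unfold c0
  rw [Measure.toSphere_real_apply_univ]
  have h1 : (0:ℝ) < (volume : Measure E3).real (ball 0 1) := by
    rw [measureReal_def, ENNReal.toReal_pos_iff]
    exact ⟨measure_ball_pos _ _ one_pos, measure_ball_lt_top⟩
  have hd : Module.finrank ℝ E3 = 3 := by simp
  rw [hd]
  positivity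

/-- Flux identity for the Newton kernel. -/
lemma flux {ψ : E3 → ℝ} (hψ : ContDiff ℝ 1 ψ) (hc : HasCompactSupport ψ) (X : E3)
    (hint : Integrable (fun Z : E3 => (‖Z‖ ^ 3)⁻¹ * fderiv ℝ ψ (X - Z) Z) volume) :
    ∫ Z : E3, (‖Z‖ ^ 3)⁻¹ * fderiv ℝ ψ (X - Z) Z = c0 * ψ X := by
  rw [integral_polar _ hint]
  have hinner : ∀ ω : sphere (0 : E3) 1, (∫ r in Ioi (0 : ℝ), r ^ 2 *
      ((‖r • (ω : E3)‖ ^ 3)⁻¹ * fderiv ℝ ψ (X - r • (ω : E3)) (r • (ω : E3)))) = ψ X := by
    intro ω
    have hω : ‖(ω : E3)‖ = 1 := by simp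
    -- the antiderivative
    have hder : ∀ r : ℝ, HasDerivAt (fun r : ℝ => -ψ (X - r • (ω : E3)))
        (fderiv ℝ ψ (X - r • (ω : E3)) (ω : E3)) r := by
      intro r
      have h1 : HasFDerivAt ψ (fderiv ℝ ψ (X - r • (ω : E3))) (X - r • (ω : E3)) :=
        ((hψ.differentiable one_ne_zero) _).hasFDerivAt
      have h2 : HasDerivAt (fun r : ℝ => X - r • (ω : E3)) (-(ω : E3)) r := by
        have h3 : HasDerivAt (fun r : ℝ => r • (ω : E3)) ((1:ℝ) • (ω : E3)) r :=
          (hasDerivAt_id r).smul_const _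
        rw [one_smul] at h3
        exact h3.const_sub X
      have h4 := (h1.comp_hasDerivAt r h2).neg
      have h5 : -((fderiv ℝ ψ (X - r • (ω : E3))) (-(ω : E3))) = fderiv ℝ ψ (X - r • (ω : E3)) (ω : E3) := by
        rw [map_neg, neg_neg]
      rw [h5] at h4
      exact h4
    have heq : ∀ r ∈ Ioi (0:ℝ), r ^ 2 *
      ((‖r • (ω : E3)‖ ^ 3)⁻¹ * fderiv ℝ ψ (X - r • (ω : E3)) (r • (ω : E3))) =
        fderiv ℝ ψ (X - r • (ω : E3)) (ω : E3) := by
      intro r hr
      have hr0 : (0:ℝ) < r := hr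
      rw [norm_smul, hω, mul_one, Real.norm_of_nonneg hr0.le, map_smul, smul_eq_mul]
      field_simp
    rw [setIntegral_congr_fun measurableSet_Ioi heq]
    -- compact support along the ray
    obtain ⟨R, hR⟩ : ∃ R : ℝ, ∀ Y : E3, R < ‖Y‖ → ψ Y = 0 := by
      obtain ⟨R, hR⟩ := hc.isCompact.isBounded.subset_closedBall 0
      refine ⟨R, fun Y hY => ?_⟩
      by_contra h
      have : Y ∈ closedBall (0:E3) R := hR (subset_tsupport _ h)
      rw [mem_closedBall, dist_zero_right] at this
      linarith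
    have hnorm : ∀ r : ℝ, R + ‖X‖ < r → R < ‖X - r • (ω : E3)‖ := by
      intro r hr
      have h1 : ‖r • (ω : E3)‖ ≤ ‖X‖ + ‖X - r • (ω : E3)‖ := by
        have : r • (ω : E3) = X - (X - r • (ω : E3)) := by abel
        calc ‖r • (ω : E3)‖ = ‖X - (X - r • (ω : E3))‖ := by rw [← this]
          _ ≤ _ := norm_sub_le _ _
      rw [norm_smul, hω, mul_one] at h1
      have h2 := Real.le_norm_self r
      linarith
    have hzero : ∀ r : ℝ, R + ‖X‖ < r → -ψ (X - r • (ω : E3)) = 0 := by
      intro r hr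
      rw [hR _ (hnorm r hr), neg_zero]
    have hlim : Tendsto (fun r : ℝ => -ψ (X - r • (ω : E3))) atTop (𝓝 0) := by
      refine tendsto_const_nhds.congr' ?_
      filter_upwards [eventually_gt_atTop (R + ‖X‖)] with r hr
      exact (hzero r hr).symm
    have hcontder : Continuous (fun r : ℝ => fderiv ℝ ψ (X - r • (ω : E3)) (ω : E3)) := by
      have h1 : Continuous (fderiv ℝ ψ) := hψ.continuous_fderiv one_ne_zero
      fun_prop
    have hintder : IntegrableOn (fun r : ℝ => fderiv ℝ ψ (X - r • (ω : E3)) (ω : E3)) (Ioi 0) := by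
      have hcs : HasCompactSupport (fun r : ℝ => fderiv ℝ ψ (X - r • (ω : E3)) (ω : E3)) := by
        apply HasCompactSupport.intro (K := Icc (-(|R| + ‖X‖ + 1)) (|R| + ‖X‖ + 1)) isCompact_Icc
        intro r hr
        have hr2 : |R| + ‖X‖ + 1 < |r| := by
          by_contra hcon
          exact hr (abs_le.mp (not_lt.mp hcon))
        -- ψ vanishes near the point
        have h1 : ∀ᶠ Y in 𝓝 (X - r • (ω : E3)), ψ Y = 0 := by
          have h2 : R < ‖X - r • (ω : E3)‖ := by
            have h1 : ‖r • (ω : E3)‖ ≤ ‖X‖ + ‖X - r • (ω : E3)‖ := by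
              have : r • (ω : E3) = X - (X - r • (ω : E3)) := by abel
              calc ‖r • (ω : E3)‖ = ‖X - (X - r • (ω : E3))‖ := by rw [← this]
                _ ≤ _ := norm_sub_le _ _
            rw [norm_smul, hω, mul_one, Real.norm_eq_abs] at h1
            have := le_abs_self R
            linarith
          filter_upwards [continuous_norm.continuousAt.eventually (lt_mem_nhds h2)] with Y hY
          exact hR Y hY
        have h3 : fderiv ℝ ψ (X - r • (ω : E3)) = 0 := by
          have h4 : ψ =ᶠ[𝓝 (X - r • (ω : E3))] fun _ => (0:ℝ) := h1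
          rw [h4.fderiv_eq, fderiv_fun_const]; rfl
        rw [h3]; rfl
      exact (hcontder.integrable_of_hasCompactSupport hcs).integrableOn
    rw [integral_Ioi_of_hasDerivAt_of_tendsto' (fun r _ => hder r) hintder hlim]
    simp
  simp_rw [hinner]
  rw [integral_const, smul_eq_mul, c0]

end Pool.Agent.Lib.MP_9aae89_an
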