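import Pool.Agent.Lib.MP_9aae89_an.Layer

/-!
Abstract potential theory: potentials of bounded measurable densities carried by the layer.
-/

namespace Pool.Agent.Lib.MP_9aae89_an

open MeasureTheory Set Filter Topology Metric
open scoped ENNReal

variable {S : Set E3} {M : ℝ}

/-- Bounded measurable densities carried by the set `S`. -/
structure Dens (S : Set E3) (g : E3 → ℝ) (A : ℝ) : Prop where
  meas : AEStronglyMeasurable g volume
  bd : ∀ Y, |g Y| ≤ A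
  supp : ∀ Y, Y ∉ S → g Y = 0

lemma Dens.nonneg {g : E3 → ℝ} {A : ℝ} (hg : Dens S g A) : 0 ≤ A :=
  (abs_nonneg _).trans (hg.bd 0)

/-- The dominating function. -/
noncomputable def dom (S : Set E3) (B : ℝ) (X Y : E3) : ℝ := S.indicator (fun Y => B * WW (X - Y)) Y

lemma dom_integrable (hS : Good S M) (B : ℝ) (X : E3) : Integrable (dom S B X) volume := by
  unfold dom
  rw [integrable_indicator_iff hS.meas]
  exact (hS.int X).const_mul B

lemma integral_dom_le (hS : Good S M) {B : ℝ} (hB : 0 ≤ B) (X : E3) : ∫ Y, dom S B X Y ≤ B * M := by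
  unfold dom
  rw [integral_indicator hS.meas, integral_const_mul]
  exact mul_le_mul_of_nonneg_left (hS.bd X) hB

lemma ae_ne_E3 (X : E3) : ∀ᵐ Y ∂(volume : Measure E3), Y ≠ X := by
  simp [ae_iff, measure_singleton]

variable {G : Type*} [NormedAddCommGroup G] [NormedSpace ℝ G]

/-- The potential `∫ g(Y) κ(X - Y) dY`. -/
noncomputable def pot (κ : E3 → G) (g : E3 → ℝ) (X : E3) : G := ∫ Y, g Y • κ (X - Y)

lemma norm_le_dom {κ : E3 → G} {g : E3 → ℝ} {A C : ℝ} (hg : Dens S g A) (hC : 0 ≤ C)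
    {X X' Y : E3} (hκ : g Y ≠ 0 → ‖κ (X' - Y)‖ ≤ C * WW (X - Y)) :
    ‖g Y • κ (X' - Y)‖ ≤ dom S (A * C) X Y := by
  unfold dom
  by_cases hY : Y ∈ S
  · rw [Set.indicator_of_mem hY, norm_smul, Real.norm_eq_abs]
    by_cases h0 : g Y = 0
    · have hA := hg.nonneg
      rw [h0, abs_zero, zero_mul]
      exact mul_nonneg (mul_nonneg hA hC) (WW_nonneg _)
    · calc |g Y| * ‖κ (X' - Y)‖ ≤ A * (C * WW (X - Y)) :=
          mul_le_mul (hg.bd Y) (hκ h0) (norm_nonneg _) hg.nonneg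
        _ = A * C * WW (X - Y) := by ring
  · rw [Set.indicator_of_notMem hY, hg.supp Y hY]; simp

lemma aesm_integrand {κ : E3 → G} (hκ : StronglyMeasurable κ) {g : E3 → ℝ} {A : ℝ} (hg : Dens S g A)
    (X : E3) : AEStronglyMeasurable (fun Y => g Y • κ (X - Y)) volume :=
  hg.meas.smul (hκ.comp_measurable (by fun_prop)).aestronglyMeasurable

lemma integrable_integrand (hS : Good S M) {κ : E3 → G} (hκ : StronglyMeasurable κ) {C : ℝ} (hC : 0 ≤ C)
    (hb : ∀ Z, Z ≠ 0 → ‖κ Z‖ ≤ C * WW Z) {g : E3 → ℝ} {A : ℝ} (hg : Dens S g A)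
    (X : E3) : Integrable (fun Y => g Y • κ (X - Y)) volume := by
  refine (dom_integrable hS (A * C) X).mono' (aesm_integrand hκ hg X) ?_
  filter_upwards [ae_ne_E3 X] with Y hY
  exact norm_le_dom hg hC (fun _ => hb _ (sub_ne_zero.mpr (Ne.symm hY)))

lemma norm_pot_le (hS : Good S M) {κ : E3 → G} {C : ℝ} (hC : 0 ≤ C)
    (hb : ∀ Z, Z ≠ 0 → ‖κ Z‖ ≤ C * WW Z) {g : E3 → ℝ} {A : ℝ} (hg : Dens S g A)
    (X : E3) : ‖pot κ g X‖ ≤ A * C * M := by
  refine (norm_integral_le_of_norm_le (dom_integrable hS (A * C) X) ?_).trans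
    (integral_dom_le hS (mul_nonneg hg.nonneg hC) X)
  filter_upwards [ae_ne_E3 X] with Y hY
  exact norm_le_dom hg hC (fun _ => hb _ (sub_ne_zero.mpr (Ne.symm hY)))

lemma pot_sub_kernel (hS : Good S M) {κ₁ κ₂ : E3 → G} (h₁ : StronglyMeasurable κ₁) (h₂ : StronglyMeasurable κ₂)
    {C₁ C₂ : ℝ} (hC₁ : 0 ≤ C₁) (hC₂ : 0 ≤ C₂)
    (hb₁ : ∀ Z, Z ≠ 0 → ‖κ₁ Z‖ ≤ C₁ * WW Z) (hb₂ : ∀ Z, Z ≠ 0 → ‖κ₂ Z‖ ≤ C₂ * WW Z)
    {g : E3 → ℝ} {A : ℝ} (hg : Dens S g A) (X : E3) :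
    pot κ₁ g X - pot κ₂ g X = pot (fun Z => κ₁ Z - κ₂ Z) g X := by
  unfold pot
  rw [← integral_sub (integrable_integrand hS h₁ hC₁ hb₁ hg X) (integrable_integrand hS h₂ hC₂ hb₂ hg X)]
  congr 1
  ext Y
  rw [smul_sub]

lemma ww_shift {X X' Y : E3} (h : ‖X' - X‖ ≤ 1) : ww (X' - Y) ≤ 2 * ww (X - Y) := by
  unfold ww
  have h1 : max 1 ‖X - Y‖ ≤ 2 * max 1 ‖X' - Y‖ := by
    have h2 : ‖X - Y‖ ≤ ‖X' - X‖ + ‖X' - Y‖ := by
      have : X - Y = -(X' - X) + (X' - Y) := by abel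
      rw [this]
      refine (norm_add_le _ _).trans ?_
      rw [norm_neg]
    have h3 : (1:ℝ) ≤ max 1 ‖X' - Y‖ := le_max_left _ _
    have h4 : ‖X' - Y‖ ≤ max 1 ‖X' - Y‖ := le_max_right _ _
    apply max_le <;> linarith
  have hp1 : 0 < max 1 ‖X - Y‖ := lt_max_of_lt_left one_pos
  have hp2 : 0 < max 1 ‖X' - Y‖ := lt_max_of_lt_left one_pos
  rw [inv_eq_one_div, ← div_eq_mul_inv, div_le_div_iff₀ hp2 hp1]
  linarith

/-- Differentiation under the integral sign, local form. -/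
theorem hasFDerivAt_pot {D : Set E3} (hD : Good D M) {κ : E3 → G} {κ' : E3 → E3 →L[ℝ] G} {S : Set E3} {C : ℝ} (hC : 0 ≤ C)
    (hκm : StronglyMeasurable κ) (hκ'm : StronglyMeasurable κ')
    (hder : ∀ Z ∈ S, HasFDerivAt κ (κ' Z) Z)
    (hb : ∀ Z ∈ S, ‖κ Z‖ ≤ C * ww Z) (hb' : ∀ Z ∈ S, ‖κ' Z‖ ≤ C * ww Z)
    {g : E3 → ℝ} {A : ℝ} (hg : Dens D g A) {X₀ : E3} {r : ℝ} (hr : 0 < r) (hr1 : r ≤ 1)
    (hloc : ∀ X ∈ ball X₀ r, ∀ Y, g Y ≠ 0 → X - Y ∈ S) :
    HasFDerivAt (pot κ g) (pot κ' g X₀) X₀ := by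
  have hX₀ : X₀ ∈ ball X₀ r := mem_ball_self hr
  unfold pot
  refine hasFDerivAt_integral_of_dominated_of_fderiv_le (F' := fun X Y => g Y • κ' (X - Y))
    (bound := dom D (A * (2 * C)) X₀) (s := ball X₀ r) (ball_mem_nhds X₀ hr) ?_ ?_ ?_ ?_ ?_ ?_
  · exact Eventually.of_forall fun X => aesm_integrand hκm hg X
  · refine (dom_integrable hD (A * C) X₀).mono' (aesm_integrand hκm hg X₀) ?_
    refine Eventually.of_forall fun Y => norm_le_dom hg hC (fun h => ?_)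
    exact (hb _ (hloc X₀ hX₀ Y h)).trans (mul_le_mul_of_nonneg_left (ww_le_WW _) hC)
  · exact aesm_integrand hκ'm hg X₀
  · refine Eventually.of_forall fun Y X hX => norm_le_dom (G := E3 →L[ℝ] G) (κ := κ')
      (X := X₀) (X' := X) (Y := Y) (C := 2 * C) hg (by positivity) (fun h => ?_)
    refine (hb' _ (hloc X hX Y h)).trans ?_
    have h1 : ww (X - Y) ≤ 2 * ww (X₀ - Y) := by
      apply ww_shift
      rw [mem_ball, dist_eq_norm] at hX
      exact (hX.le.trans hr1)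
    have h2 := ww_le_WW (X₀ - Y)
    nlinarith [mul_le_mul_of_nonneg_left h1 hC, mul_le_mul_of_nonneg_left h2 hC]
  · exact dom_integrable hD _ _
  · refine Eventually.of_forall fun Y X hX => ?_
    by_cases h0 : g Y = 0
    · simp only [h0, zero_smul]
      exact hasFDerivAt_const _ _
    · have h1 := hder _ (hloc X hX Y h0)
      have h2 : HasFDerivAt (fun X : E3 => κ (X - Y)) (κ' (X - Y)) X := by
        have h3 := h1.comp X ((hasFDerivAt_id X).sub_const Y)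
        rw [ContinuousLinearMap.comp_id] at h3
        exact h3
      exact h2.const_smul (g Y)

/-- Continuity of potentials, local form. -/
theorem continuousAt_pot {D : Set E3} (hD : Good D M) {κ : E3 → G} {S : Set E3} {C : ℝ} (hC : 0 ≤ C)
    (hκm : StronglyMeasurable κ) (hcont : ∀ Z ∈ S, ContinuousAt κ Z)
    (hb : ∀ Z ∈ S, ‖κ Z‖ ≤ C * ww Z)
    {g : E3 → ℝ} {A : ℝ} (hg : Dens D g A) {X₀ : E3} {r : ℝ} (hr : 0 < r) (hr1 : r ≤ 1)
    (hloc : ∀ X ∈ ball X₀ r, ∀ Y, g Y ≠ 0 → X - Y ∈ S) :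
    ContinuousAt (pot κ g) X₀ := by
  have hX₀ : X₀ ∈ ball X₀ r := mem_ball_self hr
  unfold pot
  refine continuousAt_of_dominated (bound := dom D (A * (2 * C)) X₀) ?_ ?_ (dom_integrable hD _ _) ?_
  · exact Eventually.of_forall fun X => aesm_integrand hκm hg X
  · filter_upwards [ball_mem_nhds X₀ hr] with X hX
    refine Eventually.of_forall fun Y => norm_le_dom (C := 2 * C) hg (by positivity) (fun h => ?_)
    refine (hb _ (hloc X hX Y h)).trans ?_
    have h1 : ww (X - Y) ≤ 2 * ww (X₀ - Y) := by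
      apply ww_shift
      rw [mem_ball, dist_eq_norm] at hX
      exact (hX.le.trans hr1)
    have h2 := ww_le_WW (X₀ - Y)
    nlinarith [mul_le_mul_of_nonneg_left h1 hC, mul_le_mul_of_nonneg_left h2 hC]
  · refine Eventually.of_forall fun Y => ?_
    by_cases h0 : g Y = 0
    · simp only [h0, zero_smul]
      exact continuousAt_const
    · have h1 := hcont _ (hloc X₀ hX₀ Y h0)
      have h2 : ContinuousAt (fun X : E3 => κ (X - Y)) X₀ :=
        ContinuousAt.comp (f := fun X : E3 => X - Y) (g := κ) h1 (by fun_prop)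
      exact h2.const_smul (g Y)

/-- Potentials with a weakly singular kernel approximated by regular ones are of class `C¹`. -/
theorem pot_C1 (hS : Good S M) {κ : E3 → ℝ} {κ' : E3 → E3 →L[ℝ] ℝ} {C : ℝ} (hC : 0 ≤ C)
    (hκm : StronglyMeasurable κ) (hκ'm : StronglyMeasurable κ')
    (hb : ∀ Z, Z ≠ 0 → ‖κ Z‖ ≤ C * WW Z) (hb' : ∀ Z, Z ≠ 0 → ‖κ' Z‖ ≤ C * WW Z)
    {k : ℕ → E3 → ℝ} {k' : ℕ → E3 → E3 →L[ℝ] ℝ} {c : ℕ → ℝ} (hc : ∀ n, 0 ≤ c n)
    (hder : ∀ n Z, HasFDerivAt (k n) (k' n Z) Z) (hcont : ∀ n, Continuous (k' n))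
    (hbn : ∀ n Z, ‖k n Z‖ ≤ c n * ww Z) (hbn' : ∀ n Z, ‖k' n Z‖ ≤ c n * ww Z)
    {ε : ℕ → ℝ} (hε : ∀ n, 0 ≤ ε n) (hεlim : Tendsto ε atTop (𝓝 0))
    (happ : ∀ n Z, Z ≠ 0 → ‖k n Z - κ Z‖ ≤ ε n * WW Z)
    (happ' : ∀ n Z, Z ≠ 0 → ‖k' n Z - κ' Z‖ ≤ ε n * WW Z)
    {g : E3 → ℝ} {A : ℝ} (hg : Dens S g A) :
    (∀ X, HasFDerivAt (pot κ g) (pot κ' g X) X) ∧ Continuous (pot κ' g) := by
  have hkc : ∀ n, Continuous (k n) := fun n =>
    continuous_iff_continuousAt.mpr fun Z => (hder n Z).continuousAt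
  have hkm : ∀ n, StronglyMeasurable (k n) := fun n => (hkc n).stronglyMeasurable
  have hkm' : ∀ n, StronglyMeasurable (k' n) := fun n => (hcont n).stronglyMeasurable
  have hbn2 : ∀ n Z, Z ≠ 0 → ‖k n Z‖ ≤ c n * WW Z := fun n Z _ =>
    (hbn n Z).trans (mul_le_mul_of_nonneg_left (ww_le_WW _) (hc n))
  have hbn2' : ∀ n Z, Z ≠ 0 → ‖k' n Z‖ ≤ c n * WW Z := fun n Z _ =>
    (hbn' n Z).trans (mul_le_mul_of_nonneg_left (ww_le_WW _) (hc n))
  have hA := hg.nonneg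
  have hlim0 : Tendsto (fun n => A * ε n * M) atTop (𝓝 0) := by
    have := (hεlim.const_mul A).mul_const M
    simpa using this
  -- pointwise convergence
  have hpt : ∀ X, Tendsto (fun n => pot (k n) g X) atTop (𝓝 (pot κ g X)) := by
    intro X
    rw [tendsto_iff_norm_sub_tendsto_zero]
    refine squeeze_zero (fun _ => norm_nonneg _) (fun n => ?_) hlim0
    rw [pot_sub_kernel hS (hkm n) hκm (hc n) hC (hbn2 n) hb hg X]
    exact norm_pot_le hS (hε n) (happ n) hg X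
  -- uniform convergence of the derivatives
  have hunif : TendstoUniformly (fun n => pot (k' n) g) (pot κ' g) atTop := by
    rw [Metric.tendstoUniformly_iff]
    intro δ hδ
    filter_upwards [hlim0.eventually (gt_mem_nhds hδ)] with n hn X
    rw [dist_comm, dist_eq_norm, pot_sub_kernel hS (hkm' n) hκ'm (hc n) hC (hbn2' n) hb' hg X]
    exact (norm_pot_le hS (hε n) (happ' n) hg X).trans_lt hn
  have hdern : ∀ n X, HasFDerivAt (pot (k n) g) (pot (k' n) g X) X := fun n X =>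
    hasFDerivAt_pot hS (S := Set.univ) (hc n) (hkm n) (hkm' n) (fun Z _ => hder n Z)
      (fun Z _ => hbn n Z) (fun Z _ => hbn' n Z) hg one_pos le_rfl (fun _ _ _ _ => Set.mem_univ _)
  have hcn : ∀ n, Continuous (pot (k' n) g) := fun n =>
    continuous_iff_continuousAt.mpr fun X =>
      continuousAt_pot hS (S := Set.univ) (hc n) (hkm' n) (fun Z _ => (hcont n).continuousAt)
      (fun Z _ => hbn' n Z) hg one_pos le_rfl (fun _ _ _ _ => Set.mem_univ _)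
  refine ⟨fun X => hasFDerivAt_of_tendstoUniformly hunif hdern hpt X, ?_⟩
  exact hunif.continuous (Frequently.of_forall hcn)

end Pool.Agent.Lib.MP_9aae89_an
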