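import Pool.Agent.Lib.MP_9aae89_an.Polar

/-!
Second derivatives of Newton potentials of `C¹` densities, and the Poisson equation.
-/

namespace Pool.Agent.Lib.MP_9aae89_an

open MeasureTheory Set Filter Topology Metric InnerProductSpace Laplacian
open scoped ENNReal RealInnerProductSpace

/-- The standard orthonormal basis. -/
noncomputable def ob : OrthonormalBasis (Fin 3) ℝ E3 := EuclideanSpace.basisFun (Fin 3) ℝ

lemma inner_ob (Z : E3) (i : Fin 3) : ⟪Z, ob i⟫ = Z i := by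
  simp [ob, EuclideanSpace.inner_single_right]

lemma norm_sq_E3 (Z : E3) : ‖Z‖ ^ 2 = Z 0 ^ 2 + Z 1 ^ 2 + Z 2 ^ 2 := by
  rw [EuclideanSpace.real_norm_sq_eq, Fin.sum_univ_three]

lemma laplacian_of_hasFDerivAt {f : E3 → ℝ} {f1 : E3 → E3 →L[ℝ] ℝ} {f2 : E3 →L[ℝ] E3 →L[ℝ] ℝ} {X : E3}
    (h1 : ∀ᶠ Y in 𝓝 X, HasFDerivAt f (f1 Y) Y) (h2 : HasFDerivAt f1 f2 X) :
    Δ f X = ∑ i, f2 (ob i) (ob i) := by
  have h3 : fderiv ℝ f =ᶠ[𝓝 X] f1 := h1.mono fun Y hY => hY.fderiv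
  rw [laplacian_eq_iteratedFDeriv_orthonormalBasis f ob]
  simp only [iteratedFDeriv_two_apply]
  rw [h3.fderiv_eq, h2.fderiv]
  simp

lemma norm_BB_op : ‖BB‖ ≤ 1 := by
  refine ContinuousLinearMap.opNorm_le_bound _ zero_le_one (fun y => ?_)
  rw [one_mul]; exact norm_BB_le y

lemma trace_kd'' (Z : E3) : ∑ i, kd'' Z (ob i) (ob i) = 0 := by
  by_cases hZ : Z = 0
  · simp [kd'', hZ]
  · have hn : 0 < ‖Z‖ := norm_pos_iff.mpr hZ
    have h1 : ∀ i, kd'' Z (ob i) (ob i) = -(‖Z‖ ^ 3)⁻¹ + 3 * (‖Z‖ ^ 5)⁻¹ * (Z i) ^ 2 := by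
      intro i
      have h2 : (ob i).ofLp i = (1:ℝ) := by simp [ob]
      simp only [kd'', add_apply, smul_apply, ContinuousLinearMap.smulRight_apply, BB_apply,
        smul_eq_mul, inner_ob, h2]
      ring
    simp_rw [h1]
    rw [Fin.sum_univ_three]
    have h3 := norm_sq_E3 Z
    have h4 : (‖Z‖ ^ 3)⁻¹ = (‖Z‖ ^ 5)⁻¹ * ‖Z‖ ^ 2 := by field_simp
    rw [h4, h3]
    ring

lemma far_scalar {n : ℝ} (hn : 1/2 < n) : (n ^ 2)⁻¹ ≤ 8 * (max 1 n)⁻¹ ∧ (n ^ 3)⁻¹ ≤ 8 * (max 1 n)⁻¹ := by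
  have hn0 : 0 < n := by linarith
  set m := max 1 n with hm
  have hm1 : 1 ≤ m := le_max_left _ _
  have hm2 : m ≤ 2 * n := max_le (by linarith) (by linarith)
  have hm0 : 0 < m := by linarith
  constructor
  · rw [← div_eq_mul_inv, inv_eq_one_div, div_le_div_iff₀ (by positivity) hm0]
    nlinarith
  · rw [← div_eq_mul_inv, inv_eq_one_div, div_le_div_iff₀ (by positivity) hm0]
    have h1 : m ≤ m ^ 3 := by nlinarith [sq_nonneg m, mul_pos hm0 hm0]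
    have h2 : m ^ 3 ≤ (2 * n) ^ 3 := pow_le_pow_left₀ hm0.le hm2 3
    nlinarith

lemma norm_kd'_far {Z : E3} (h : 1/2 < ‖Z‖) : ‖kd' 0 Z‖ ≤ 32 * ww Z := by
  have hn : 0 < ‖Z‖ := by linarith
  refine (norm_kd'_le 0 Z).trans ?_
  rw [rho_zero]
  have h1 : (‖Z‖ ^ 3)⁻¹ * ‖Z‖ = (‖Z‖ ^ 2)⁻¹ := by field_simp
  rw [h1]
  have h2 := (far_scalar h).1
  have h3 := ww_nonneg Z
  unfold ww at *
  linarith

lemma norm_comb {V : Type*} [NormedAddCommGroup V] [NormedSpace ℝ V] (a b : ℝ) (ha : 0 ≤ a)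
    (hb : 0 ≤ b) (B C : V) : ‖(-a) • B + b • C‖ ≤ a * ‖B‖ + b * ‖C‖ := by
  refine (norm_add_le _ _).trans ?_
  rw [norm_smul, norm_smul, norm_neg, Real.norm_of_nonneg ha, Real.norm_of_nonneg hb]

lemma norm_kd''_far {Z : E3} (h : 1/2 < ‖Z‖) : ‖kd'' Z‖ ≤ 32 * ww Z := by
  have hn : 0 < ‖Z‖ := by linarith
  have h1 : ‖kd'' Z‖ ≤ (‖Z‖ ^ 3)⁻¹ * 1 + 3 * (‖Z‖ ^ 5)⁻¹ * (‖Z‖ * ‖Z‖) := by
    have h2 : ‖kd'' Z‖ ≤ (‖Z‖ ^ 3)⁻¹ * ‖BB‖ + 3 * (‖Z‖ ^ 5)⁻¹ * ‖(BB Z).smulRight (BB Z)‖ :=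
      norm_comb (V := E3 →L[ℝ] E3 →L[ℝ] ℝ) _ _ (by positivity) (by positivity) _ _
    refine h2.trans ?_
    apply add_le_add
    · exact mul_le_mul_of_nonneg_left norm_BB_op (by positivity)
    · rw [ContinuousLinearMap.norm_smulRight_apply]
      exact mul_le_mul_of_nonneg_left
        (mul_le_mul (norm_BB_le Z) (norm_BB_le Z) (norm_nonneg _) (norm_nonneg _)) (by positivity)
  have h2 : (‖Z‖ ^ 3)⁻¹ * 1 + 3 * (‖Z‖ ^ 5)⁻¹ * (‖Z‖ * ‖Z‖) = 4 * (‖Z‖ ^ 3)⁻¹ := by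
    field_simp; norm_num
  rw [h2] at h1
  have h3 := (far_scalar h).2
  unfold ww
  linarith

lemma continuousAt_kd'' {Z : E3} (h : Z ≠ 0) : ContinuousAt kd'' Z := by
  have hn : 0 < ‖Z‖ := norm_pos_iff.mpr h
  have hc : Continuous (fun Z : E3 => (BB Z).smulRight (BB Z)) :=
    isBoundedBilinearMap_smulRight.continuous.comp (BB.continuous.prodMk BB.continuous)
  have : ContinuousAdd (E3 →L[ℝ] E3 →L[ℝ] ℝ) :=
    (inferInstance : IsTopologicalAddGroup (E3 →L[ℝ] E3 →L[ℝ] ℝ)).toContinuousAdd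
  have h1 : ContinuousAt (fun Z : E3 => -(‖Z‖ ^ 3)⁻¹) Z := by
    apply ContinuousAt.neg
    apply ContinuousAt.inv₀ (by fun_prop) (by positivity)
  have h2 : ContinuousAt (fun Z : E3 => 3 * (‖Z‖ ^ 5)⁻¹) Z := by
    apply ContinuousAt.mul continuousAt_const
    apply ContinuousAt.inv₀ (by fun_prop) (by positivity)
  exact (h1.smul continuousAt_const).add (h2.smul hc.continuousAt)

lemma integrable_apply_aux {V : Type*} [NormedAddCommGroup V] [NormedSpace ℝ V] {κ : E3 → E3 →L[ℝ] V}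
    (hint : Integrable κ volume) (a : E3) :
    Integrable (fun Y => κ Y a) volume ∧ (∫ Y, κ Y) a = ∫ Y, κ Y a :=
  ⟨hint.apply_continuousLinearMap a, ContinuousLinearMap.integral_apply hint a⟩

lemma pot_apply {S : Set E3} {M : ℝ} (hS : Good S M) {V : Type*} [NormedAddCommGroup V]
    [NormedSpace ℝ V] {κ : E3 → E3 →L[ℝ] V} (hκ : StronglyMeasurable κ)
    {g : E3 → ℝ} {A : ℝ} (hg : Dens S g A) {C : ℝ} (hC : 0 ≤ C) {X : E3}
    (hb : ∀ Y, g Y ≠ 0 → ‖κ (X - Y)‖ ≤ C * WW (X - Y)) (a : E3) :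
    Integrable (fun Y => g Y • κ (X - Y) a) volume ∧
      pot κ g X a = ∫ Y, g Y • κ (X - Y) a := by
  have hint : Integrable (fun Y => g Y • κ (X - Y)) volume := by
    refine (dom_integrable hS (A * C) X).mono'
      (aesm_integrand hκ hg X) ?_
    exact Eventually.of_forall fun Y => norm_le_dom hg hC (hb Y)
  exact integrable_apply_aux hint a

lemma pot_apply_apply {S : Set E3} {M : ℝ} (hS : Good S M) {κ : E3 → E3 →L[ℝ] E3 →L[ℝ] ℝ}
    (hκ : StronglyMeasurable κ) {g : E3 → ℝ} {A : ℝ} (hg : Dens S g A) {C : ℝ} (hC : 0 ≤ C) {X : E3}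
    (hb : ∀ Y, g Y ≠ 0 → ‖κ (X - Y)‖ ≤ C * WW (X - Y)) :
    (∀ a b, Integrable (fun Y => g Y * κ (X - Y) a b) volume) ∧
      ∀ a b, pot κ g X a b = ∫ Y, g Y * κ (X - Y) a b := by
  have h1 : ∀ a, _ := fun a => pot_apply hS (V := E3 →L[ℝ] ℝ) hκ hg hC hb a
  have h2 : ∀ a b, _ := fun a b => integrable_apply_aux (V := ℝ) (h1 a).1 b
  refine ⟨fun a b => (h2 a b).1, fun a b => ?_⟩
  have h3 := (h1 a).2
  have h4 := (h2 a b).2
  rw [h3, h4]
  rfl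

/-- Away from its density the Newton potential is `C²` and harmonic. -/
theorem far_C2 {D : Set E3} {M : ℝ} (hD : Good D M) {g : E3 → ℝ} {A : ℝ} (hg : Dens D g A) {X₀ : E3}
    (hfar : ∀ Y, ‖Y - X₀‖ < 1 → g Y = 0) :
    ContDiffAt ℝ 2 (pot (kd 0) g) X₀ ∧ Δ (pot (kd 0) g) X₀ = 0 := by
  obtain ⟨hD1, _⟩ := newton_C1 hD hg
  set S : Set E3 := {Z | 1/2 < ‖Z‖} with hS
  have hSne : ∀ Z ∈ S, Z ≠ 0 := by
    intro Z hZ h0
    rw [hS, Set.mem_ofPred_eq, h0, norm_zero] at hZ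
    linarith
  have hloc : ∀ X ∈ ball X₀ (1/2), ∀ Y, g Y ≠ 0 → X - Y ∈ S := by
    intro X hX Y hY
    have h1 : 1 ≤ ‖Y - X₀‖ := by
      by_contra hcon
      exact hY (hfar Y (not_le.mp hcon))
    rw [mem_ball, dist_eq_norm] at hX
    have h2 : ‖Y - X₀‖ ≤ ‖X - Y‖ + ‖X - X₀‖ := by
      have : Y - X₀ = (X - X₀) - (X - Y) := by abel
      rw [this]
      refine (norm_sub_le _ _).trans ?_
      linarith
    show 1/2 < ‖X - Y‖
    linarith
  have hD2 : ∀ X ∈ ball X₀ (1/2), HasFDerivAt (pot (kd' 0) g) (pot kd'' g X) X := by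
    intro X hX
    obtain ⟨r, hr, hrsub⟩ := Metric.isOpen_iff.mp isOpen_ball X hX
    have hr' : 0 < min r 1 := lt_min hr one_pos
    refine hasFDerivAt_pot hD (S := S) (C := 32) (by norm_num) (stronglyMeasurable_kd' 0)
      stronglyMeasurable_kd'' (fun Z hZ => hasFDerivAt_kd' (hSne Z hZ))
      (fun Z hZ => norm_kd'_far hZ) (fun Z hZ => norm_kd''_far hZ) hg hr' (min_le_right _ _) ?_
    intro X' hX' Y hY
    exact hloc X' (hrsub (ball_subset_ball (min_le_left _ _) hX')) Y hY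
  have hC2 : ∀ X ∈ ball X₀ (1/2), ContinuousAt (pot kd'' g) X := by
    intro X hX
    obtain ⟨r, hr, hrsub⟩ := Metric.isOpen_iff.mp isOpen_ball X hX
    have hr' : 0 < min r 1 := lt_min hr one_pos
    refine continuousAt_pot hD (S := S) (C := 32) (by norm_num) stronglyMeasurable_kd''
      (fun Z hZ => continuousAt_kd'' (hSne Z hZ)) (fun Z hZ => norm_kd''_far hZ) hg hr'
      (min_le_right _ _) ?_
    intro X' hX' Y hY
    exact hloc X' (hrsub (ball_subset_ball (min_le_left _ _) hX')) Y hY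
  have hX₀ : X₀ ∈ ball X₀ (1/2 : ℝ) := mem_ball_self (by norm_num)
  have hnh : ball X₀ (1/2 : ℝ) ∈ 𝓝 X₀ := ball_mem_nhds _ (by norm_num)
  constructor
  · have h1 : ContDiffAt ℝ 1 (pot (kd' 0) g) X₀ := by
      have h0 : ContDiffAt ℝ (((0 : ℕ) : WithTop ℕ∞) + 1) (pot (kd' 0) g) X₀ := by
        rw [contDiffAt_succ_iff_hasFDerivAt]
        refine ⟨pot kd'' g, ⟨ball X₀ (1/2), hnh, hD2⟩, ?_⟩
        rw [Nat.cast_zero, contDiffAt_zero]
        exact ⟨ball X₀ (1/2), hnh, fun X hX => (hC2 X hX).continuousWithinAt⟩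
      simpa using h0
    have h2 : ContDiffAt ℝ (((1 : ℕ) : WithTop ℕ∞) + 1) (pot (kd 0) g) X₀ := by
      rw [contDiffAt_succ_iff_hasFDerivAt]
      exact ⟨pot (kd' 0) g, ⟨univ, univ_mem, fun X _ => hD1 X⟩, by exact_mod_cast h1⟩
    have h3 : (((1 : ℕ) : WithTop ℕ∞) + 1) = 2 := by norm_num
    rwa [h3] at h2
  · rw [laplacian_of_hasFDerivAt (Eventually.of_forall hD1) (hD2 X₀ hX₀)]
    -- evaluate inside the integral
    have hb : ∀ Y, g Y ≠ 0 → ‖kd'' (X₀ - Y)‖ ≤ 32 * WW (X₀ - Y) := fun Y h =>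
      (norm_kd''_far (hloc X₀ hX₀ Y h)).trans
        (mul_le_mul_of_nonneg_left (ww_le_WW _) (by norm_num))
    obtain ⟨hint, h1⟩ := pot_apply_apply hD stronglyMeasurable_kd'' hg (by norm_num : (0:ℝ) ≤ 32) hb
    simp_rw [h1]
    rw [← integral_finsetSum]
    · have h2 : ∀ Y, ∑ i, g Y * kd'' (X₀ - Y) (ob i) (ob i) = 0 := by
        intro Y
        rw [← Finset.mul_sum, trace_kd'', mul_zero]
      simp_rw [h2]
      simp
    · intro i _
      exact hint _ _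

end Pool.Agent.Lib.MP_9aae89_an
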