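import Pool.Agent.Lib.MP_9aae89_an.FixedPoint

/-!
Harmonicity of `h`, the homeomorphism, and failure of one-dimensionality.
-/

namespace Pool.Agent.Lib.MP_9aae89_an

open MeasureTheory Set Filter Topology Metric InnerProductSpace Laplacian
open scoped ENNReal RealInnerProductSpace ContDiff

/-- Coordinate functionals. -/
noncomputable def pr (i : Fin 3) : E3 →L[ℝ] ℝ := EuclideanSpace.proj i

@[simp] lemma pr_apply (i : Fin 3) (X : E3) : pr i X = X i := rfl

lemma ob_apply (i j : Fin 3) : (ob i) j = if j = i then 1 else 0 := by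
  simp [ob]

/-- First derivative of `h`. -/
noncomputable def hh1 (X : E3) : E3 →L[ℝ] ℝ :=
  pr 0 + (3 * (X 1) ^ 2 - 3 * (X 2) ^ 2) • pr 1 - (6 * X 1 * X 2) • pr 2

lemma hasFDerivAt_hh (X : E3) : HasFDerivAt hh (hh1 X) X := by
  have h0 : HasFDerivAt (fun X : E3 => X 0) (pr 0) X := (pr 0).hasFDerivAt
  have h1 : HasFDerivAt (fun X : E3 => X 1) (pr 1) X := (pr 1).hasFDerivAt
  have h2 : HasFDerivAt (fun X : E3 => X 2) (pr 2) X := (pr 2).hasFDerivAt
  have h3 := h0.add ((h1.pow 3).sub ((h1.const_mul 3).mul (h2.pow 2)))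
  have h4 : HasFDerivAt hh _ X := h3
  refine h4.congr_fderiv ?_
  ext ξ
  simp only [hh1, add_apply, sub_apply, smul_apply, pr_apply, smul_eq_mul, nsmul_eq_mul]
  push_cast
  ring

/-- Second derivative of `h`. -/
noncomputable def hh2 (X : E3) : E3 →L[ℝ] E3 →L[ℝ] ℝ :=
  ((6 * X 1) • pr 1 - (6 * X 2) • pr 2).smulRight (pr 1)
    - ((6 * X 2) • pr 1 + (6 * X 1) • pr 2).smulRight (pr 2)

lemma hasFDerivAt_hh1 (X : E3) : HasFDerivAt hh1 (hh2 X) X := by
  have h1 : HasFDerivAt (fun X : E3 => X 1) (pr 1) X := (pr 1).hasFDerivAt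
  have h2 : HasFDerivAt (fun X : E3 => X 2) (pr 2) X := (pr 2).hasFDerivAt
  have ha : HasFDerivAt (fun X : E3 => 3 * (X 1) ^ 2 - 3 * (X 2) ^ 2)
      ((6 * X 1) • pr 1 - (6 * X 2) • pr 2) X := by
    refine (((h1.pow 2).const_mul 3).sub ((h2.pow 2).const_mul 3)).congr_fderiv ?_
    ext ξ
    simp only [sub_apply, smul_apply, pr_apply, smul_eq_mul, nsmul_eq_mul]
    push_cast
    ring
  have hb : HasFDerivAt (fun X : E3 => 6 * X 1 * X 2)
      ((6 * X 2) • pr 1 + (6 * X 1) • pr 2) X := by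
    refine ((h1.const_mul 6).mul h2).congr_fderiv ?_
    ext ξ
    simp only [add_apply, smul_apply, pr_apply, smul_eq_mul]
    ring
  have hc : HasFDerivAt (fun _ : E3 => pr 0) (0 : E3 →L[ℝ] E3 →L[ℝ] ℝ) X := hasFDerivAt_const _ _
  have h3 := (hc.add (ha.smul_const (pr 1))).sub (hb.smul_const (pr 2))
  have h4 : HasFDerivAt hh1 _ X := h3
  refine h4.congr_fderiv ?_
  ext ξ η
  simp only [hh2, sub_apply, zero_add]

lemma contDiff_hh {n : WithTop ℕ∞} : ContDiff ℝ n hh := by unfold hh; fun_prop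

lemma laplacian_hh (X : E3) : Δ hh X = 0 := by
  rw [laplacian_of_hasFDerivAt (Eventually.of_forall hasFDerivAt_hh) (hasFDerivAt_hh1 X)]
  rw [Fin.sum_univ_three]
  simp only [hh2, sub_apply, add_apply, smul_apply, ContinuousLinearMap.smulRight_apply, pr_apply, smul_eq_mul,
    ob_apply]
  simp

/-! ### The homeomorphism -/

lemma ob0_zero : (ob 0) 0 = (1:ℝ) := by simp [ob_apply]

/-- A continuous function increasing at a definite rate in the first coordinate is the first
coordinate of a homeomorphism. -/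
theorem exists_homeo {w : E3 → ℝ} (hw : Continuous w) {c : ℝ} (hc : 0 < c)
    (hmono : ∀ (X : E3) (t : ℝ), 0 ≤ t → c * t ≤ w (X + t • ob 0) - w X) :
    ∃ Φ : E3 ≃ₜ E3, ∀ X, (Φ X) 0 = w X := by
  -- two-sided slope bound
  have hslope : ∀ (X : E3) (s t : ℝ), c * |s - t| ≤ |w (X + s • ob 0) - w (X + t • ob 0)| := by
    intro X s t
    rcases le_total t s with h | h
    · have h1 := hmono (X + t • ob 0) (s - t) (by linarith)
      have h2 : X + t • ob 0 + (s - t) • ob 0 = X + s • ob 0 := by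
        rw [add_assoc, ← add_smul]; congr 2; ring
      rw [h2] at h1
      rw [abs_of_nonneg (by linarith : 0 ≤ s - t)]
      exact h1.trans (le_abs_self _)
    · have h1 := hmono (X + s • ob 0) (t - s) (by linarith)
      have h2 : X + s • ob 0 + (t - s) • ob 0 = X + t • ob 0 := by
        rw [add_assoc, ← add_smul]; congr 2; ring
      rw [h2] at h1
      rw [abs_sub_comm s t, abs_of_nonneg (by linarith : 0 ≤ t - s), abs_sub_comm]
      exact h1.trans (le_abs_self _)
  let base : E3 → E3 := fun Y => Y - (Y 0) • ob 0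
  have hbase : Continuous base := by
    have h0 : Continuous (fun Y : E3 => Y 0) := by fun_prop
    exact continuous_id.sub (h0.smul continuous_const)
  -- solvability
  have hsol : ∀ Y : E3, ∃ s : ℝ, w (base Y + s • ob 0) = Y 0 := by
    intro Y
    have hcont : Continuous (fun s : ℝ => w (base Y + s • ob 0)) := by fun_prop
    have htop : Tendsto (fun s : ℝ => w (base Y + s • ob 0)) atTop atTop := by
      have h1 : ∀ᶠ s in atTop, c * s + w (base Y) ≤ w (base Y + s • ob 0) := by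
        filter_upwards [eventually_ge_atTop (0:ℝ)] with s hs
        linarith [hmono (base Y) s hs]
      refine tendsto_atTop_mono' _ h1 ?_
      exact tendsto_atTop_add_const_right _ _ (tendsto_id.const_mul_atTop hc)
    have hbot : Tendsto (fun s : ℝ => w (base Y + s • ob 0)) atBot atBot := by
      have h1 : ∀ᶠ s in atBot, w (base Y + s • ob 0) ≤ c * s + w (base Y) := by
        filter_upwards [eventually_le_atBot (0:ℝ)] with s hs
        have h2 := hmono (base Y + s • ob 0) (-s) (by linarith)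
        have h3 : base Y + s • ob 0 + (-s) • ob 0 = base Y := by
          rw [add_assoc, ← add_smul]; simp
        rw [h3] at h2
        linarith
      refine tendsto_atBot_mono' _ h1 ?_
      exact tendsto_atBot_add_const_right _ _ (tendsto_id.const_mul_atBot hc)
    exact hcont.surjective htop hbot (Y 0)
  choose σ hσ using hsol
  have hσuniq : ∀ (Y : E3) (s : ℝ), w (base Y + s • ob 0) = Y 0 → s = σ Y := by
    intro Y s hs
    have h1 := hslope (base Y) s (σ Y)
    rw [hs, hσ Y, sub_self, abs_zero] at h1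
    have h2 : |s - σ Y| ≤ 0 := by
      by_contra hcon
      have := mul_pos hc (not_le.mp hcon)
      linarith
    have h3 : |s - σ Y| = 0 := le_antisymm h2 (abs_nonneg _)
    linarith [abs_eq_zero.mp h3]
  have hσcont : Continuous σ := by
    rw [continuous_iff_continuousAt]
    intro Y
    rw [ContinuousAt, tendsto_iff_norm_sub_tendsto_zero]
    have hb : ∀ Y', ‖σ Y' - σ Y‖ ≤ c⁻¹ * |Y' 0 - w (base Y' + σ Y • ob 0)| := by
      intro Y'
      have h1 := hslope (base Y') (σ Y') (σ Y)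
      rw [hσ Y'] at h1
      rw [Real.norm_eq_abs, inv_mul_eq_div, le_div_iff₀ hc]
      linarith
    refine squeeze_zero (fun _ => norm_nonneg _) hb ?_
    have h0 : Continuous (fun Y' : E3 => Y' 0) := by fun_prop
    have h1 : Continuous (fun Y' : E3 => c⁻¹ * |Y' 0 - w (base Y' + σ Y • ob 0)|) := by
      have h2 : Continuous (fun Y' : E3 => w (base Y' + σ Y • ob 0)) :=
        hw.comp (hbase.add continuous_const)
      exact continuous_const.mul (h0.sub h2).abs
    have h3 := h1.tendsto Y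
    have h4 : c⁻¹ * |Y 0 - w (base Y + σ Y • ob 0)| = 0 := by
      rw [hσ Y, sub_self, abs_zero, mul_zero]
    rwa [h4] at h3
  have hob : ∀ s : ℝ, (s • ob 0 : E3) 0 = s := by
    intro s
    rw [PiLp.smul_apply, ob0_zero, smul_eq_mul, mul_one]
  have hcoord : ∀ (Y : E3) (s : ℝ), (base Y + s • ob 0) 0 = s := by
    intro Y s
    rw [PiLp.add_apply, PiLp.sub_apply, hob, hob]; ring
  have hbb : ∀ (Y : E3) (s : ℝ), base (base Y + s • ob 0) = base Y := by
    intro Y s
    show base Y + s • ob 0 - ((base Y + s • ob 0) 0) • ob 0 = base Y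
    rw [hcoord]; abel
  have hself : ∀ Y : E3, base Y + (Y 0) • ob 0 = Y := fun Y => by
    show Y - (Y 0) • ob 0 + (Y 0) • ob 0 = Y
    abel
  refine ⟨{ toFun := fun X => base X + (w X) • ob 0
            invFun := fun Y => base Y + (σ Y) • ob 0
            left_inv := ?_
            right_inv := ?_
            continuous_toFun := hbase.add (hw.smul continuous_const)
            continuous_invFun := hbase.add (hσcont.smul continuous_const) }, ?_⟩
  · intro X
    show base (base X + (w X) • ob 0) + (σ (base X + (w X) • ob 0)) • ob 0 = X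
    have h1 : X 0 = σ (base X + (w X) • ob 0) := by
      apply hσuniq
      rw [hbb, hself, hcoord]
    rw [hbb, ← h1, hself]
  · intro Y
    show base (base Y + (σ Y) • ob 0) + (w (base Y + (σ Y) • ob 0)) • ob 0 = Y
    rw [hbb, hσ, hself]
  · intro X
    exact hcoord X (w X)

/-! ### Failure of one-dimensionality -/

lemma eq_zero_of_bdd_quad {Q : ℝ} (h : ∀ t : ℝ, |t ^ 2 * Q| ≤ 4) : Q = 0 := by
  by_contra hQ
  have hQ0 : 0 < |Q| := abs_pos.mpr hQ
  have h1 := h (5 / |Q| + 1)
  rw [abs_mul, abs_of_nonneg (sq_nonneg _)] at h1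
  have h2 : (5 / |Q| + 1) ^ 2 * |Q| = 25 / |Q| + 10 + |Q| := by
    field_simp; ring
  rw [h2] at h1
  have h3 : 0 < 25 / |Q| := by positivity
  linarith

lemma eq_zero_of_bdd_lin {Q : ℝ} (h : ∀ t : ℝ, |t * Q| ≤ 2) : Q = 0 := by
  by_contra hQ
  have hQ0 : 0 < |Q| := abs_pos.mpr hQ
  have h1 := h (3 / |Q|)
  rw [abs_mul, abs_of_nonneg (by positivity)] at h1
  have h2 : (3 / |Q|) * |Q| = 3 := by field_simp
  rw [h2] at h1
  linarith

/-- No direction of invariance. -/
theorem no_invariance {u : E3 → ℝ} {K : ℝ} (hK : 1 ≤ K) (hclose : ∀ X, |u X - K * hh X| ≤ 1) {ξ : E3}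
    (hinv : ∀ (Y : E3) (t : ℝ), u (Y + t • ξ) = u Y) : ξ = 0 := by
  have hdiff : ∀ (Y : E3) (t : ℝ), |hh (Y + t • ξ) - hh Y| ≤ 2 := by
    intro Y t
    have h1 := hclose (Y + t • ξ)
    have h2 := hclose Y
    rw [hinv Y t] at h1
    have h3 : |K * (hh (Y + t • ξ) - hh Y)| ≤ 2 := by
      rw [abs_le] at h1 h2 ⊢
      constructor <;> linarith [h1.1, h1.2, h2.1, h2.2]
    rw [abs_mul, abs_of_nonneg (by linarith : 0 ≤ K)] at h3
    nlinarith [abs_nonneg (hh (Y + t • ξ) - hh Y)]
  have hcoord : ∀ (Y : E3) (t : ℝ) (i : Fin 3), (Y + t • ξ) i = Y i + t * ξ i := fun Y t i => by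
    rw [PiLp.add_apply, PiLp.smul_apply, smul_eq_mul]
  have hsecond : ∀ Y : E3, 6 * Y 1 * (ξ 1 ^ 2 - ξ 2 ^ 2) - 12 * Y 2 * (ξ 1 * ξ 2) = 0 := by
    intro Y
    apply eq_zero_of_bdd_quad
    intro t
    have h1 := hdiff Y t
    have h2 := hdiff Y (-t)
    have h3 : t ^ 2 * (6 * Y 1 * (ξ 1 ^ 2 - ξ 2 ^ 2) - 12 * Y 2 * (ξ 1 * ξ 2)) =
        (hh (Y + t • ξ) - hh Y) + (hh (Y + (-t) • ξ) - hh Y) := by
      simp only [hh, hcoord]
      ring
    rw [h3]
    refine (abs_add_le _ _).trans ?_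
    linarith
  have ha : ξ 1 ^ 2 - ξ 2 ^ 2 = 0 := by
    have h := hsecond (ob 1)
    have e1 : (ob 1) 1 = (1:ℝ) := by simp [ob]
    have e2 : (ob 1) 2 = (0:ℝ) := by simp [ob]
    rw [e1, e2] at h
    linarith
  have hb : ξ 1 * ξ 2 = 0 := by
    have h := hsecond (ob 2)
    have e1 : (ob 2) 1 = (0:ℝ) := by simp [ob]
    have e2 : (ob 2) 2 = (1:ℝ) := by simp [ob]
    rw [e1, e2] at h
    linarith
  have h12 : ξ 1 = 0 ∧ ξ 2 = 0 := by
    rcases mul_eq_zero.mp hb with h | h
    · refine ⟨h, ?_⟩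
      rw [h] at ha
      have : ξ 2 ^ 2 = 0 := by linarith
      simpa using this
    · refine ⟨?_, h⟩
      rw [h] at ha
      have : ξ 1 ^ 2 = 0 := by linarith
      simpa using this
  have h0 : ξ 0 = 0 := by
    apply eq_zero_of_bdd_lin
    intro t
    have h1 := hdiff 0 t
    have h3 : t * ξ 0 = hh (0 + t • ξ) - hh 0 := by
      simp only [hh, hcoord, h12.1, h12.2, PiLp.zero_apply]
      ring
    rw [h3]
    exact h1
  have hn : ‖ξ‖ ^ 2 = 0 := by
    rw [norm_sq_E3, h0, h12.1, h12.2]; norm_num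
  have : ‖ξ‖ = 0 := by simpa using hn
  exact norm_eq_zero.mp this

/-- A function close to `K h` is not one-dimensional. -/
theorem not_oneDim {u : E3 → ℝ} {K : ℝ} (hK : 1 ≤ K) (hclose : ∀ X, |u X - K * hh X| ≤ 1) :
    ¬ ∃ (R : E3 ≃ᵢ E3) (V : ℝ → ℝ), ∀ x, u (R x) = V (x 0) := by
  rintro ⟨R, V, hRV⟩
  let A := R.toRealAffineIsometryEquiv
  have hA : ∀ x, A x = R x := fun x => rfl
  have hadd : ∀ (x v : E3), R (x + v) = R x + A.linearIsometryEquiv v := by
    intro x v
    rw [← hA, ← hA, add_comm x v, add_comm (A x)]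
    exact A.map_vadd x v
  set ξ := A.linearIsometryEquiv (ob 1) with hξ
  have hinv : ∀ (Y : E3) (t : ℝ), u (Y + t • ξ) = u Y := by
    intro Y t
    obtain ⟨x, rfl⟩ := R.surjective Y
    have h1 : R x + t • ξ = R (x + t • ob 1) := by
      rw [hadd, map_smul]
    rw [h1, hRV, hRV]
    congr 1
    rw [PiLp.add_apply, PiLp.smul_apply, ob_apply]
    simp
  have h0 := no_invariance hK hclose hinv
  have h1 : ‖ξ‖ = 1 := by
    rw [hξ, LinearIsometryEquiv.norm_map, ob.norm_eq_one]
  rw [h0, norm_zero] at h1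
  exact zero_ne_one h1

end Pool.Agent.Lib.MP_9aae89_an
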